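import Pool.Agent.Run7.h30.Mot.Cat

set_option autoImplicit false

open CategoryTheory Module Pool.Agent.W539.DI Pool.Agent.R929.DH Pool.Agent.R941.OH
  Pool.Agent.N174.OC Pool.Agent.Y107

universe u v

namespace Run7.h30.Mot

variable {𝒪 : Type u} [Category.{v} 𝒪] [Preadditive 𝒪] [Linear ℚ 𝒪] {n : ℕ}
  {T : CorTheory 𝒪 n} {ν j : ℕ} {hj : j ≤ ν} {A B C : Obj T ν j hj}

theorem exists_actQ (Γ : A ⟶ B) : ∃ f : A.Q.R →ₗ[ℂ] B.Q.R, ∀ a, B.ψ (f a) =
    T.act (Obj.val Γ) (A.ψ a) := by
  have hi : Function.Injective B.ψ := psiK_inj B.P hj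
  choose f hf using val_mem Γ
  refine ⟨{ toFun := f, map_add' := fun a b => ?_, map_smul' := fun c a => ?_ }, hf⟩
  · apply hi
    rw [map_add, hf, hf, hf, map_add, map_add]
  · apply hi
    rw [map_smul, hf, hf, map_smul, map_smul]
    rfl

/-- the action on the quotient -/
noncomputable def actQ (Γ : A ⟶ B) : A.Q.R →ₗ[ℂ] B.Q.R := (exists_actQ Γ).choose

theorem psi_actQ (Γ : A ⟶ B) (a : A.Q.R) : B.ψ (actQ Γ a) = T.act (Obj.val Γ) (A.ψ a) :=
  (exists_actQ Γ).choose_spec a

theorem actQ_unique {Γ : A ⟶ B} {a : A.Q.R} {b : B.Q.R}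
    (h : B.ψ b = T.act (Obj.val Γ) (A.ψ a)) : actQ Γ a = b :=
  psiK_inj B.P hj (by rw [h]; exact psi_actQ Γ a)

/-- the component of a correspondence which preserves the images -/
theorem cmp_homS (i : ℤ) {Γ : A.X ⟶ B.X} (h : Γ ∈ homS A B) :
    cmp (T.isInternal A.X B.X) i Γ ∈ homS A B := by
  have key : ∀ a, T.act (cmp (T.isInternal A.X B.X) i Γ) (A.ψ a) ∈ LinearMap.range B.ψ := by
    intro a
    obtain ⟨x, rfl⟩ := res_surj (T.K A.X) A.P hj a
    have e : ∀ x, A.ψ (A.res x) = A.L ^ j * x := psiK_res A.P hj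
    have e1 := e x
    rw [show A.ψ (Run7.h30.res (T.K A.X) A.P hj x) = A.L ^ j * x from e x]
    refine (T.K A.X).ind (P := fun x => T.act (cmp (T.isInternal A.X B.X) i Γ) (A.L ^ j * x) ∈
      LinearMap.range B.ψ) ?_ ?_ ?_ x
    · rw [mul_zero, map_zero]
      exact Submodule.zero_mem _
    · intro x y hx hy
      rw [mul_add, map_add]
      exact Submodule.add_mem _ hx hy
    · intro p q x hx
      by_cases hneg : p + q + 2 * (j : ℤ) + 2 * i < 0
      · have h1 := T.act_mem (cmp_mem (T.isInternal A.X B.X) i Γ) _ _ _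
          ((T.K A.X).pow_mul_mem A.P.mem j hx)
        have h2 : T.act (cmp (T.isInternal A.X B.X) i Γ) (A.L ^ j * x) = 0 := by
          have h3 := (T.K B.X).van (p + j + i) (q + j + i) (by omega)
          rw [h3] at h1
          exact h1
        rw [h2]
        exact Submodule.zero_mem _
      · obtain ⟨m, hm⟩ : ∃ m : ℕ, p + j + (q + j) + 2 * i = m :=
          ⟨(p + j + (q + j) + 2 * i).toNat, by omega⟩
        rw [act_cj T Γ i (m := m) ((T.K A.X).pow_mul_mem A.P.mem j hx) hm]
        obtain ⟨b, hb⟩ := h (A.res x)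
        rw [e] at hb
        rw [← hb]
        obtain ⟨y, rfl⟩ := res_surj (T.K B.X) B.P hj b
        have e2 : B.ψ (Run7.h30.res (T.K B.X) B.P hj y) = B.L ^ j * y := psiK_res B.P hj y
        rw [e2]
        -- the component of degree `m` of `L ^ j y`
        have e3 : ∀ y : (T.K B.X).R, dg (T.K B.X) m (B.L ^ j * y) ∈ LinearMap.range B.ψ := by
          intro y
          refine (T.K B.X).ind (P := fun y => dg (T.K B.X) m (B.L ^ j * y) ∈
            LinearMap.range B.ψ) ?_ ?_ ?_ y
          · rw [mul_zero, map_zero]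
            exact Submodule.zero_mem _
          · intro x y hx hy
            rw [mul_add, map_add]
            exact Submodule.add_mem _ hx hy
          · intro a b y hy
            rw [dg_of (T.K B.X) ((T.K B.X).pow_mul_mem B.P.mem j hy)]
            split_ifs
            · exact ⟨B.res y, psiK_res B.P hj y⟩
            · exact Submodule.zero_mem _
        exact e3 y
  intro a
  obtain ⟨b, hb⟩ := key a
  exact ⟨b, hb⟩

/-- the grading of the correspondences -/
def grQ (A B : Obj T ν j hj) (i : ℤ) : Submodule ℚ (A ⟶ B) := (T.gr A.X B.X i).comap (valL A B)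

theorem mem_grQ {i : ℤ} {Γ : A ⟶ B} : Γ ∈ grQ A B i ↔ Obj.val Γ ∈ T.gr A.X B.X i := Iff.rfl

/-- The graded category of correspondences. -/
def corQ (T : CorTheory 𝒪 n) (ν j : ℕ) (hj : j ≤ ν) : Cor (Obj T ν j hj) where
  gr A B := grQ A B
  isInternal A B := internal_comap (T.isInternal A.X B.X) (homS A B) fun i _ h => cmp_homS i h
  id_mem A := T.id_mem A.X
  comp_mem {A B C} i j Γ Δ h1 h2 := T.comp_mem (Γ := Obj.val Γ) (Δ := Obj.val Δ) h1 h2

/-- Its action on the quotients. -/
noncomputable def corActQ (T : CorTheory 𝒪 n) (ν j : ℕ) (hj : j ≤ ν) :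
    CorAct (Obj T ν j hj) (n - j) where
  toCor := corQ T ν j hj
  K A := A.Q
  r A := quotRat A.P hj (T.r A.X) A.rat
  act {A B} :=
    { toFun := fun Γ => actQ Γ
      map_zero' := by
        ext a
        apply actQ_unique
        have : Obj.val (0 : A ⟶ B) = 0 := rfl
        rw [this, map_zero, LinearMap.zero_apply, LinearMap.zero_apply, map_zero]
      map_add' := fun Γ Δ => by
        ext a
        apply actQ_unique
        rw [LinearMap.add_apply, map_add, psi_actQ, psi_actQ, val_add, map_add,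
          LinearMap.add_apply] }
  act_id A := by
    ext a
    apply actQ_unique
    rw [val_id, T.act_id]
    rfl
  act_comp {A B C} Γ Δ := by
    ext a
    apply actQ_unique
    rw [LinearMap.comp_apply, val_comp, T.act_comp, LinearMap.comp_apply, ← psi_actQ, ← psi_actQ]
    rfl
  act_mem {A B} i Γ hΓ p q a ha := by
    apply mem_of_psiK B.P hj
    have h1 := T.act_mem (mem_grQ.1 hΓ) _ _ _ (psiK_mem A.P hj ha)
    have e1 : p + i + j = p + j + i := by ring
    have e2 : q + i + j = q + j + i := by ring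
    rw [e1, e2]
    exact (psi_actQ Γ a).symm ▸ h1
  act_rat {A B} Γ a ha := by
    apply rat_of_psiK B.P hj
    have h1 := T.act_rat (Obj.val Γ) _ (rat_psiK A.P hj (T.r A.X) A.rat ha)
    exact (psi_actQ Γ a).symm ▸ h1

end Run7.h30.Mot
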