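import Pool.Agent.Run7.h30.Mot.Tate
import Pool.Agent.Run7.h30.Defect

set_option autoImplicit false

open CategoryTheory Module Pool.Agent.W539.DI Pool.Agent.R929.DH Pool.Agent.R941.OH
  Pool.Agent.N174.OC Pool.Agent.Y107

universe u v

namespace Run7.h30.Mot

variable {𝒪 : Type u} [Category.{v} 𝒪] [Preadditive 𝒪] [Linear ℚ 𝒪] {n : ℕ}
  {T : CorTheory 𝒪 n} {ν j : ℕ} {hj : j ≤ ν} {A B : Obj T ν j hj}

/-- the projector onto the kernel of `L ^ j` in degree `m` -/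
noncomputable def Obj.k (A : Obj T ν j hj) (m : ℕ) : Module.End ℂ (T.K A.X).R :=
  dg (T.K A.X) m - A.e m

theorem isAlg_k (A : Obj T ν j hj) (m : ℕ) : IsAlg T (A.k m) := by
  obtain ⟨Γ, hΓ⟩ := isAlg_dg T A.B m
  obtain ⟨Δ, hΔ⟩ := isAlg_e A m
  exact ⟨Γ - Δ, by rw [map_sub, hΓ, hΔ]; rfl⟩

theorem dg_dg' (A : Obj T ν j hj) (m : ℕ) :
    dg (T.K A.X) m * dg (T.K A.X) m = dg (T.K A.X) m := by
  ext x
  exact dg_idem _ _ _

theorem k_k (A : Obj T ν j hj) (m : ℕ) : A.k m * A.k m = A.k m := by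
  unfold Obj.k
  rw [sub_mul, mul_sub, mul_sub, dg_dg', dg_e, e_dg, e_e, sub_self, sub_zero]

theorem dg_k (A : Obj T ν j hj) (m : ℕ) : dg (T.K A.X) m * A.k m = A.k m := by
  unfold Obj.k
  rw [mul_sub, dg_dg', dg_e]

theorem L_k (A : Obj T ν j hj) (m : ℕ) (x : (T.K A.X).R) : A.L ^ j * A.k m x = 0 := by
  unfold Obj.k
  rw [LinearMap.sub_apply, mul_sub, L_e, sub_self]

theorem k_of (A : Obj T ν j hj) {m : ℕ} {p q : ℤ} {x : (T.K A.X).R} (hx : x ∈ (T.K A.X).H (p, q)) :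
    A.k m x = if p + q = m then x - T.act A.M (A.L ^ j * x) else 0 := by
  unfold Obj.k
  rw [LinearMap.sub_apply, e_apply, dg_of (T.K A.X) hx]
  split_ifs
  · rfl
  · rw [mul_zero, map_zero, sub_zero]

theorem k_mem (A : Obj T ν j hj) {m : ℕ} {p q : ℤ} {x : (T.K A.X).R} (hx : x ∈ (T.K A.X).H (p, q)) :
    A.k m x ∈ (T.K A.X).H (p, q) := by
  rw [k_of A hx]
  split_ifs
  · refine Submodule.sub_mem _ hx ?_
    have hM := T.act_mem (M_mem A) _ _ _ ((T.K A.X).pow_mul_mem A.P.mem j hx)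
    rwa [add_neg_cancel_right, add_neg_cancel_right] at hM
  · exact Submodule.zero_mem _

theorem k_id (A : Obj T ν j hj) {m : ℕ} {p q : ℤ} {x : (T.K A.X).R} (hx : x ∈ (T.K A.X).H (p, q))
    (hpq : p + q = m) (h0 : A.L ^ j * x = 0) : A.k m x = x := by
  rw [k_of A hx, if_pos hpq, h0, map_zero, sub_zero]

theorem kerIso_of_sameOp {m : ℕ} (h : SameOp T (A.k m) (B.k m)) :
    KerIso T A.X B.X A.L B.L j m := by
  obtain ⟨_, _, ⟨Γ, rfl⟩, ⟨Δ, rfl⟩, h1, h2⟩ := h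
  have g1 : ∀ x, T.act Δ (T.act Γ x) = A.k m x := fun x =>
    congrArg (fun f : (T.K A.X).R →ₗ[ℂ] (T.K A.X).R => f x) h1
  have g2 : ∀ y, T.act Γ (T.act Δ y) = B.k m y := fun y =>
    congrArg (fun f : (T.K B.X).R →ₗ[ℂ] (T.K B.X).R => f y) h2
  have key : ∀ {A B : Obj T ν j hj} (Γ : A.X ⟶ B.X) (Δ : B.X ⟶ A.X),
      (∀ x, T.act Δ (T.act Γ x) = A.k m x) → (∀ y, T.act Γ (T.act Δ y) = B.k m y) →
      ∀ (p q : ℤ) (x : (T.K A.X).R), x ∈ (T.K A.X).H (p, q) → p + q = m → A.L ^ j * x = 0 →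
      B.L ^ j * T.act (c0 T Γ) x = 0 ∧ T.act (c0 T Δ) (T.act (c0 T Γ) x) = x := by
    intro A B Γ Δ g1 g2 p q x hx hpq h0
    have h3 : B.k m (T.act Γ x) = T.act Γ x := by
      rw [← g2, g1, k_id A hx hpq h0]
    have h4 : T.act (c0 T Γ) x = T.act Γ x := by
      rw [act_c0 T Γ hx hpq, ← h3, ← Module.End.mul_apply, dg_k]
    have h5 := T.act_mem (c0_mem T Γ) p q x hx
    rw [add_zero, add_zero] at h5
    refine ⟨by rw [h4, ← h3, L_k], ?_⟩
    rw [act_c0 T Δ h5 hpq, h4, g1, ← Module.End.mul_apply, dg_k, k_id A hx hpq h0]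
  exact ⟨c0 T Γ, c0_mem T Γ, c0 T Δ, c0_mem T Δ, key Γ Δ g1 g2, key Δ Γ g2 g1⟩

theorem trace_k (A : Obj T ν j hj) {m : ℕ} {a b : ℤ} (hab : a + b = m)
    (h0 : ∀ (p q : ℤ) (x : (T.K A.X).R), x ∈ (T.K A.X).H (p, q) → p + q = m → p ≠ a →
      A.L ^ j * x = 0 → x = 0) :
    LinearMap.trace ℂ (T.K A.X).R (A.k m) = (kerDim (T.K A.X) A.L j a b : ℂ) := by
  have hp : LinearMap.IsProj
      ((T.K A.X).H (a, b) ⊓ LinearMap.ker (LinearMap.mulLeft ℂ (A.L ^ j)) : Submodule ℂ _)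
      (A.k m) := by
    constructor
    · intro x
      refine (T.K A.X).ind (P := fun x => A.k m x ∈
        ((T.K A.X).H (a, b) ⊓ LinearMap.ker (LinearMap.mulLeft ℂ (A.L ^ j)) : Submodule ℂ _))
        ?_ ?_ ?_ x
      · rw [map_zero]
        exact Submodule.zero_mem _
      · intro x y hx hy
        rw [map_add]
        exact Submodule.add_mem _ hx hy
      · intro p q x hx
        have h1 : A.k m x ∈ LinearMap.ker (LinearMap.mulLeft ℂ (A.L ^ j)) := by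
          rw [LinearMap.mem_ker, LinearMap.mulLeft_apply, L_k]
        refine Submodule.mem_inf.2 ⟨?_, h1⟩
        by_cases hpq : p + q = m
        · by_cases hpa : p = a
          · have : q = b := by omega
            subst hpa this
            exact k_mem A hx
          · rw [h0 p q _ (k_mem A hx) hpq hpa (L_k A m x)]
            exact Submodule.zero_mem _
        · rw [k_of A hx, if_neg hpq]
          exact Submodule.zero_mem _
    · intro x hx
      rw [Submodule.mem_inf, LinearMap.mem_ker, LinearMap.mulLeft_apply] at hx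
      exact k_id A hx.1 hab hx.2
  rw [hp.trace]
  rfl

/-- Idempotents whose images are spanned by algebraic classes, of the same dimension. -/
theorem sameOp_of_alg {X Y : 𝒪} {v : X ⟶ Y} {w : Y ⟶ X} (h : T.IsDerivedPair v w)
    (hBX : T.ConjB X) {d : ℕ} {P : Module.End ℂ (T.K X).R} {Q : Module.End ℂ (T.K Y).R}
    (aP : IsAlg T P) (aQ : IsAlg T Q) (iP : P * P = P) (iQ : Q * Q = Q)
    (hA : ∀ x, P x ∈ Submodule.span ℂ {y | ∃ Γ : X ⟶ X, T.act Γ 1 = y})
    (hB : ∀ x, Q x ∈ Submodule.span ℂ {y | ∃ Γ : Y ⟶ Y, T.act Γ 1 = y})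
    (tA : LinearMap.trace ℂ (T.K X).R P = d)
    (tB : LinearMap.trace ℂ (T.K Y).R Q = d) : SameOp T P Q := by
  have hBY := conjB_trans T hBX h
  obtain ⟨U, hU⟩ := exists_actM T hBX
  obtain ⟨W, hW⟩ := exists_actN T h hBY
  obtain ⟨P, rfl⟩ := exists_E T aP
  obtain ⟨Q, rfl⟩ := exists_F T h aQ
  have iP' : P * P = P := rhoE_inj T (by rw [map_mul, iP])
  have iQ' : Q * Q = Q := rhoF_inj T h (by rw [map_mul, iQ])
  rw [sameOp_iff h U iP' iQ']
  intro S
  have h1 := tate_mult U d P iP' (fun x => by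
    rw [hU]
    refine Submodule.span_mono ?_ (hA x)
    rintro _ ⟨Γ, rfl⟩
    obtain ⟨a, ha⟩ := exists_E T (isAlg_act T Γ)
    exact ⟨a, by rw [ha]⟩) (by rw [hU, tA]) S
  have h2 := tate_mult W d Q iQ' (fun x => by
    rw [hW]
    refine Submodule.span_mono ?_ (hB x)
    rintro _ ⟨Γ, rfl⟩
    obtain ⟨a, ha⟩ := exists_F T h (isAlg_act T Γ)
    exact ⟨a, by rw [ha]⟩) (by rw [hW, tB]) S
  have h3 : tS S (U.L.p 0) = tS S (W.L.p 0) := by
    have h4 := (same_iff' T h U W hU hW (fun j => j = 0)).1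
      (sameAlg_of_iso T hBX hBY (iso_zero T)) S
    have e : (Finset.range (2 * n + 1)).filter (fun j => j = 0) = {0} := by
      ext j
      simp only [Finset.mem_filter, Finset.mem_range, Finset.mem_singleton]
      omega
    rwa [t_pD, t_pD, e, Finset.sum_singleton, Finset.sum_singleton] at h4
  rw [h1, h2, h3]

/-- Kernels which are spanned by algebraic classes, of the same dimension. -/
theorem kerIso_of_alg {v : A.X ⟶ B.X} {w : B.X ⟶ A.X} (h : T.IsDerivedPair v w) {m d : ℕ}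
    (hA : ∀ x, A.k m x ∈ Submodule.span ℂ {y | ∃ Γ : A.X ⟶ A.X, T.act Γ 1 = y})
    (hB : ∀ x, B.k m x ∈ Submodule.span ℂ {y | ∃ Γ : B.X ⟶ B.X, T.act Γ 1 = y})
    (tA : LinearMap.trace ℂ (T.K A.X).R (A.k m) = d)
    (tB : LinearMap.trace ℂ (T.K B.X).R (B.k m) = d) : KerIso T A.X B.X A.L B.L j m :=
  kerIso_of_sameOp (sameOp_of_alg h A.B (isAlg_k A m) (isAlg_k B m) (k_k A m) (k_k B m) hA hB tA tB)

/-- The image of the projector. -/
theorem k_range (A : Obj T ν j hj) {m : ℕ} {a b : ℤ} (hab : a + b = m)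
    (h0 : ∀ (p q : ℤ) (x : (T.K A.X).R), x ∈ (T.K A.X).H (p, q) → p + q = m → p ≠ a →
      A.L ^ j * x = 0 → x = 0) (x : (T.K A.X).R) : A.k m x ∈ (T.K A.X).H (a, b) := by
  refine (T.K A.X).ind (P := fun x => A.k m x ∈ (T.K A.X).H (a, b)) ?_ ?_ ?_ x
  · rw [map_zero]
    exact Submodule.zero_mem _
  · intro x y hx hy
    rw [map_add]
    exact Submodule.add_mem _ hx hy
  · intro p q x hx
    by_cases hpq : p + q = m
    · by_cases hpa : p = a
      · have : q = b := by omega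
        subst hpa this
        exact k_mem A hx
      · rw [h0 p q _ (k_mem A hx) hpq hpa (L_k A m x)]
        exact Submodule.zero_mem _
    · rw [k_of A hx, if_neg hpq]
      exact Submodule.zero_mem _

/-- An algebraic operator whose image consists of classes of type `(1, 1)`. -/
theorem span_of_lef {X : 𝒪} (h11 : ∀ x ∈ (T.K X).H (1, 1), (T.r X).IsRat x →
    ∃ Γ : X ⟶ X, T.act Γ 1 = x) {P : Module.End ℂ (T.K X).R} (aP : IsAlg T P)
    (hP : ∀ x, P x ∈ (T.K X).H (1, 1)) (x : (T.K X).R) :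
    P x ∈ Submodule.span ℂ {y | ∃ Γ : X ⟶ X, T.act Γ 1 = y} := by
  rw [← (T.r X).e.sum_repr x, map_sum]
  refine Submodule.sum_mem _ fun i _ => ?_
  rw [map_smul]
  refine Submodule.smul_mem _ _ (Submodule.subset_span ?_)
  refine h11 _ (hP _) ?_
  obtain ⟨Γ, rfl⟩ := aP
  exact T.act_rat Γ _ (rat_e (T.r X) i)

end Run7.h30.Mot
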