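import Pool.Agent.Run7.h30.Mot.Pair

set_option autoImplicit false

open CategoryTheory Module Pool.Agent.W539.DI Pool.Agent.R929.DH Pool.Agent.R941.OH
  Pool.Agent.N174.OC Pool.Agent.Y107

universe u v

namespace Run7.h30.Mot

variable {𝒪 : Type u} [Category.{v} 𝒪] [Preadditive 𝒪] [Linear ℚ 𝒪] {n : ℕ}
  {T : CorTheory 𝒪 n}

/-- Idempotent operators which are equivalent by algebraic operators. -/
def SameOp (T : CorTheory 𝒪 n) {X Y : 𝒪} (P : Module.End ℂ (T.K X).R)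
    (Q : Module.End ℂ (T.K Y).R) : Prop :=
  ∃ (a : (T.K X).R →ₗ[ℂ] (T.K Y).R) (b : (T.K Y).R →ₗ[ℂ] (T.K X).R), IsAlg T a ∧ IsAlg T b ∧
    b ∘ₗ a = P ∧ a ∘ₗ b = Q

section

variable {X Y : 𝒪} {v : X ⟶ Y} {w : Y ⟶ X} (h : T.IsDerivedPair v w)

theorem sameOp_iff (A : Act (Ealg T X) (T.K X)) {P Q : Ealg T X} (hP : P * P = P)
    (hQ : Q * Q = Q) : SameOp T (rhoE T X P) (rhoF T h Q) ↔
      ∀ S : Submodule (Ealg T X) (Ealg T X), tS S P = tS S Q := by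
  constructor
  · rintro ⟨a, b, ha, hb, hba, hab⟩ S
    obtain ⟨b', hb'⟩ := exists_E T (a := T.act w ∘ₗ a) (IsAlg.comp T (isAlg_act T w) ha)
    obtain ⟨a', ha'⟩ := exists_E T (a := b ∘ₗ T.act v) (IsAlg.comp T hb (isAlg_act T v))
    refine equiv_tS (a := a') (b := b') ?_ ?_ S
    · apply rhoE_inj T
      rw [map_mul, ha', hb', ← hba]
      ext x
      simp only [Module.End.mul_apply, LinearMap.comp_apply, vw T h]
    · apply rhoF_inj T h
      rw [map_mul, ← hab]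
      ext y
      rw [Module.End.mul_apply, rhoF_apply, rhoF_apply, ha', hb']
      simp only [LinearMap.comp_apply, vw T h, wv T h]
  · intro hS
    have _ := A.semisimple
    obtain ⟨a, b, hab, hba⟩ := idem_equiv hP hQ hS
    refine ⟨T.act v ∘ₗ rhoE T X b, rhoE T X a ∘ₗ T.act w,
      IsAlg.comp T (isAlg_act T v) (rhoE_alg T b), IsAlg.comp T (rhoE_alg T a) (isAlg_act T w),
      ?_, ?_⟩
    · rw [← hab, map_mul]
      ext x
      simp only [Module.End.mul_apply, LinearMap.comp_apply, wv T h]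
    · rw [← hba, map_mul]
      ext y
      rw [Module.End.mul_apply, rhoF_apply, rhoF_apply]
      simp only [LinearMap.comp_apply, wv T h]

include h in
/-- Cancellation. -/
theorem sameOp_sub (hB : T.ConjB X) {P P₁ : Module.End ℂ (T.K X).R}
    {Q Q₁ : Module.End ℂ (T.K Y).R} (aP : IsAlg T P) (aP₁ : IsAlg T P₁) (aQ : IsAlg T Q)
    (aQ₁ : IsAlg T Q₁) (iP : P * P = P) (iP₁ : P₁ * P₁ = P₁) (iQ : Q * Q = Q)
    (iQ₁ : Q₁ * Q₁ = Q₁) (jP : P * P₁ = P₁) (jP' : P₁ * P = P₁) (jQ : Q * Q₁ = Q₁)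
    (jQ' : Q₁ * Q = Q₁) (h0 : SameOp T P Q) (h1 : SameOp T P₁ Q₁) :
    SameOp T (P - P₁) (Q - Q₁) := by
  obtain ⟨A, _⟩ := exists_actM T hB
  obtain ⟨p, rfl⟩ := exists_E T aP
  obtain ⟨p₁, rfl⟩ := exists_E T aP₁
  obtain ⟨q, rfl⟩ := exists_F T h aQ
  obtain ⟨q₁, rfl⟩ := exists_F T h aQ₁
  have e1 : p * p = p := rhoE_inj T (by rw [map_mul, iP])
  have e2 : p₁ * p₁ = p₁ := rhoE_inj T (by rw [map_mul, iP₁])
  have e3 : q * q = q := rhoF_inj T h (by rw [map_mul, iQ])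
  have e4 : q₁ * q₁ = q₁ := rhoF_inj T h (by rw [map_mul, iQ₁])
  have e5 : p * p₁ = p₁ := rhoE_inj T (by rw [map_mul, jP])
  have e6 : p₁ * p = p₁ := rhoE_inj T (by rw [map_mul, jP'])
  have e7 : q * q₁ = q₁ := rhoF_inj T h (by rw [map_mul, jQ])
  have e8 : q₁ * q = q₁ := rhoF_inj T h (by rw [map_mul, jQ'])
  have e9 : (p - p₁) * (p - p₁) = p - p₁ := by
    rw [sub_mul, mul_sub, mul_sub, e1, e2, e5, e6, sub_self, sub_zero]
  have e10 : (q - q₁) * (q - q₁) = q - q₁ := by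
    rw [sub_mul, mul_sub, mul_sub, e3, e4, e7, e8, sub_self, sub_zero]
  rw [← map_sub, ← map_sub, sameOp_iff h A e9 e10]
  rw [sameOp_iff h A e1 e3] at h0
  rw [sameOp_iff h A e2 e4] at h1
  intro S
  rw [map_sub, map_sub, h0 S, h1 S]

end

variable {ν j : ℕ} {hj : j ≤ ν} {A B : Obj T ν j hj}

/-- The images of `L ^ j` and `L' ^ j` on the classes of degree `m` are isomorphic by algebraic
cycles. -/
def ImIso (T : CorTheory 𝒪 n) (X Y : 𝒪) (L : (T.K X).R) (L' : (T.K Y).R) (j m : ℕ) : Prop :=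
  ∃ Z ∈ T.gr X Y 0, ∃ Z' ∈ T.gr Y X 0,
    (∀ (p q : ℤ) (x : (T.K X).R), x ∈ (T.K X).H (p, q) → p + q = m →
      (∃ y ∈ (T.K Y).H (p, q), T.act Z (L ^ j * x) = L' ^ j * y) ∧
      T.act Z' (T.act Z (L ^ j * x)) = L ^ j * x) ∧
    ∀ (p q : ℤ) (y : (T.K Y).R), y ∈ (T.K Y).H (p, q) → p + q = m →
      (∃ x ∈ (T.K X).H (p, q), T.act Z' (L' ^ j * y) = L ^ j * x) ∧
      T.act Z (T.act Z' (L' ^ j * y)) = L' ^ j * y

/-- the projector onto a complement of the kernel of `L ^ j` in degree `m` -/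
noncomputable def Obj.e (A : Obj T ν j hj) (m : ℕ) : Module.End ℂ (T.K A.X).R :=
  T.act (A.lp j ≫ A.M) * dg (T.K A.X) m

theorem e_apply (A : Obj T ν j hj) (m : ℕ) (x : (T.K A.X).R) :
    A.e m x = T.act A.M (A.L ^ j * dg (T.K A.X) m x) := by
  rw [Obj.e, Module.End.mul_apply, T.act_comp, LinearMap.comp_apply, act_lp]

theorem isAlg_e (A : Obj T ν j hj) (m : ℕ) : IsAlg T (A.e m) :=
  IsAlg.mul T (isAlg_act T _) (isAlg_dg T A.B m)

theorem dg_ML (A : Obj T ν j hj) (m : ℕ) (x : (T.K A.X).R) :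
    dg (T.K A.X) m (T.act A.M (A.L ^ j * x)) = T.act A.M (A.L ^ j * dg (T.K A.X) m x) := by
  refine (T.K A.X).ind (P := fun x => dg (T.K A.X) m (T.act A.M (A.L ^ j * x)) =
    T.act A.M (A.L ^ j * dg (T.K A.X) m x)) ?_ ?_ ?_ x
  · simp
  · intro x y hx hy
    rw [mul_add, map_add, map_add, hx, hy, map_add, mul_add, map_add]
  · intro p q x hx
    have hM := T.act_mem (M_mem A) _ _ _ ((T.K A.X).pow_mul_mem A.P.mem j hx)
    rw [add_neg_cancel_right, add_neg_cancel_right] at hM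
    rw [dg_of (T.K A.X) hM, dg_of (T.K A.X) hx]
    split_ifs
    · rfl
    · rw [mul_zero, map_zero]

theorem e_e (A : Obj T ν j hj) (m : ℕ) : A.e m * A.e m = A.e m := by
  ext x
  rw [Module.End.mul_apply, e_apply, e_apply, dg_ML, M_spec, dg_idem]

theorem dg_e (A : Obj T ν j hj) (m : ℕ) : dg (T.K A.X) m * A.e m = A.e m := by
  ext x
  rw [Module.End.mul_apply, e_apply, dg_ML, dg_idem]

theorem e_dg (A : Obj T ν j hj) (m : ℕ) : A.e m * dg (T.K A.X) m = A.e m := by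
  ext x
  rw [Module.End.mul_apply, e_apply, e_apply, dg_idem]

theorem L_e (A : Obj T ν j hj) (m : ℕ) (x : (T.K A.X).R) :
    A.L ^ j * A.e m x = A.L ^ j * dg (T.K A.X) m x := by
  rw [e_apply, M_spec]

/-- For homogeneous classes. -/
theorem e_of (A : Obj T ν j hj) {m : ℕ} {p q : ℤ} {x : (T.K A.X).R} (hx : x ∈ (T.K A.X).H (p, q))
    (hpq : p + q = m) : A.e m x = T.act A.M (A.L ^ j * x) := by
  rw [e_apply, dg_of (T.K A.X) hx, if_pos hpq]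

theorem e_mem (A : Obj T ν j hj) {m : ℕ} {p q : ℤ} {x : (T.K A.X).R} (hx : x ∈ (T.K A.X).H (p, q))
    (hpq : p + q = m) : A.e m x ∈ (T.K A.X).H (p, q) := by
  rw [e_of A hx hpq]
  have hM := T.act_mem (M_mem A) _ _ _ ((T.K A.X).pow_mul_mem A.P.mem j hx)
  rwa [add_neg_cancel_right, add_neg_cancel_right] at hM

/-- Isomorphic kernels. -/
theorem sameOp_ker {m : ℕ} (hk : KerIso T A.X B.X A.L B.L j m) :
    SameOp T (dg (T.K A.X) m - A.e m) (dg (T.K B.X) m - B.e m) := by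
  obtain ⟨Z, hZ, Z', hZ', h1, h2⟩ := hk
  have hd : ∀ A : Obj T ν j hj, IsAlg T (dg (T.K A.X) m - A.e m) := fun A => by
    obtain ⟨Γ, hΓ⟩ := isAlg_dg T A.B m
    obtain ⟨Δ, hΔ⟩ := isAlg_e A m
    exact ⟨Γ - Δ, by rw [map_sub, hΓ, hΔ]⟩
  have key : ∀ {A B : Obj T ν j hj} (Z : A.X ⟶ B.X) (Z' : B.X ⟶ A.X), Z ∈ T.gr A.X B.X 0 →
      (∀ (p q : ℤ) (x : (T.K A.X).R), x ∈ (T.K A.X).H (p, q) → p + q = m → A.L ^ j * x = 0 →
        B.L ^ j * T.act Z x = 0 ∧ T.act Z' (T.act Z x) = x) →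
      (T.act Z' ∘ₗ (dg (T.K B.X) m - B.e m)) ∘ₗ (T.act Z ∘ₗ (dg (T.K A.X) m - A.e m)) =
        dg (T.K A.X) m - A.e m := by
    intro A B Z Z' hZ h1
    refine hom_ext (T.K A.X) fun p q x hx => ?_
    simp only [LinearMap.comp_apply, LinearMap.sub_apply]
    rw [dg_of (T.K A.X) hx]
    by_cases hpq : p + q = m
    · rw [if_pos hpq]
      have hk := Submodule.sub_mem _ hx (e_mem A hx hpq)
      have hk0 : A.L ^ j * (x - A.e m x) = 0 := by
        rw [mul_sub, L_e, dg_of (T.K A.X) hx, if_pos hpq, sub_self]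
      obtain ⟨h3, h4⟩ := h1 p q _ hk hpq hk0
      have h5 := T.act_mem hZ p q _ hk
      rw [add_zero, add_zero] at h5
      rw [dg_of (T.K B.X) h5, if_pos hpq, e_of B h5 hpq, h3, map_zero, sub_zero, h4]
    · rw [if_neg hpq]
      have : A.e m x = 0 := by
        rw [e_apply, dg_of (T.K A.X) hx, if_neg hpq, mul_zero, map_zero]
      rw [this, sub_zero]
      simp only [map_zero, sub_zero]
  exact ⟨_, _, IsAlg.comp T (isAlg_act T Z) (hd A), IsAlg.comp T (isAlg_act T Z') (hd B),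
    key Z Z' hZ h1, key Z' Z hZ' h2⟩

/-- The operators given by an equivalence of idempotents, in degree zero. -/
theorem eq_step {m : ℕ} {Γ : A.X ⟶ B.X} {Δ : B.X ⟶ A.X} (g1 : ∀ x, T.act Δ (T.act Γ x) = A.e m x)
    (g2 : ∀ y, T.act Γ (T.act Δ y) = B.e m y) {p q : ℤ} {x : (T.K A.X).R}
    (hx : x ∈ (T.K A.X).H (p, q)) (hpq : p + q = m) :
    T.act (c0 T Γ) (A.e m x) = T.act Γ (A.e m x) ∧ B.e m (T.act Γ (A.e m x)) =
      T.act Γ (A.e m x) ∧ T.act Γ (A.e m x) ∈ (T.K B.X).H (p, q) := by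
  have h3 : ∀ y, B.e m (T.act Γ y) = T.act Γ (A.e m y) := fun y => by rw [← g2, g1]
  have h4 : A.e m (A.e m x) = A.e m x := by
    rw [← Module.End.mul_apply, e_e]
  have h5 : B.e m (T.act Γ (A.e m x)) = T.act Γ (A.e m x) := by rw [h3, h4]
  have h6 : T.act (c0 T Γ) (A.e m x) = T.act Γ (A.e m x) := by
    rw [act_c0 T Γ (e_mem A hx hpq) hpq, ← h5, ← Module.End.mul_apply, dg_e]
  refine ⟨h6, h5, ?_⟩
  rw [← h6]
  have := T.act_mem (c0_mem T Γ) p q _ (e_mem A hx hpq)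
  rwa [add_zero, add_zero] at this

/-- Isomorphic images, for the quotients. -/
theorem isoQ_of_sameOp {m : ℕ} (h : SameOp T (A.e m) (B.e m)) :
    (theoryQ T ν j hj).Iso A B m := by
  obtain ⟨_, _, ⟨Γ, rfl⟩, ⟨Δ, rfl⟩, h1, h2⟩ := h
  have g1 : ∀ x, T.act Δ (T.act Γ x) = A.e m x := fun x =>
    congrArg (fun f : (T.K A.X).R →ₗ[ℂ] (T.K A.X).R => f x) h1
  have g2 : ∀ y, T.act Γ (T.act Δ y) = B.e m y := fun y =>
    congrArg (fun f : (T.K B.X).R →ₗ[ℂ] (T.K B.X).R => f y) h2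
  have mk : ∀ {A B : Obj T ν j hj} (Γ : A.X ⟶ B.X), A.M ≫ c0 T Γ ≫ B.lp j ∈ homS A B :=
    fun {A B} Γ => mem_homS_of (fun a => T.act (c0 T Γ) (T.act A.M (A.ψ a)))
      fun a => by rw [T.act_comp, T.act_comp, LinearMap.comp_apply, LinearMap.comp_apply, act_lp]
  have key : ∀ {A B : Obj T ν j hj} (Γ : A.X ⟶ B.X) (Δ : B.X ⟶ A.X),
      (∀ x, T.act Δ (T.act Γ x) = A.e m x) → (∀ y, T.act Γ (T.act Δ y) = B.e m y) →
      ∀ (p q : ℤ) (x : A.Q.R), x ∈ A.Q.H (p, q) → p + q = m →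
      actQ (A := B) (B := A) (⟨B.M ≫ c0 T Δ ≫ A.lp j, mk Δ⟩ : homS B A)
        (actQ (A := A) (B := B) (⟨A.M ≫ c0 T Γ ≫ B.lp j, mk Γ⟩ : homS A B) x) = x := by
    intro A B Γ Δ g1 g2 p q x hx hpq
    obtain ⟨x, hx, rfl⟩ := hx
    have act1 : ∀ {A B : Obj T ν j hj} (Γ : A.X ⟶ B.X) (p q : ℤ) (x : (T.K A.X).R),
        x ∈ (T.K A.X).H (p, q) → p + q = m →
        actQ (A := A) (B := B) (⟨A.M ≫ c0 T Γ ≫ B.lp j, mk Γ⟩ : homS A B) (A.res x) =
          B.res (T.act (c0 T Γ) (A.e m x)) := by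
      intro A B Γ p q x hx hpq
      apply actQ_unique
      have : Obj.val (A := A) (B := B) (⟨A.M ≫ c0 T Γ ≫ B.lp j, mk Γ⟩ : homS A B) =
        A.M ≫ c0 T Γ ≫ B.lp j := rfl
      rw [this, T.act_comp, T.act_comp, LinearMap.comp_apply, LinearMap.comp_apply, act_lp,
        psi_res, psi_res, e_of A hx hpq]
    obtain ⟨h3, h4, h5⟩ := eq_step g1 g2 hx hpq
    obtain ⟨h6, h7, h8⟩ := eq_step g2 g1 h5 hpq
    show actQ _ (actQ _ (A.res x)) = A.res x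
    rw [act1 Γ p q x hx hpq, h3, act1 Δ p q _ h5 hpq, h6, h4, g1]
    apply psiK_inj A.P hj
    show A.ψ (A.res _) = A.ψ (A.res _)
    rw [psi_res, psi_res, L_e, dg_of (T.K A.X) (e_mem A hx hpq), if_pos hpq, L_e,
      dg_of (T.K A.X) hx, if_pos hpq]
  refine ⟨(⟨A.M ≫ c0 T Γ ≫ B.lp j, mk Γ⟩ : homS A B), ?_,
    (⟨B.M ≫ c0 T Δ ≫ A.lp j, mk Δ⟩ : homS B A), ?_, key Γ Δ g1 g2, key Δ Γ g2 g1⟩
  · have h3 := T.comp_mem (M_mem A) (T.comp_mem (c0_mem T Γ) (lp_mem B j))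
    rw [zero_add, neg_add_cancel] at h3
    exact h3
  · have h3 := T.comp_mem (M_mem B) (T.comp_mem (c0_mem T Δ) (lp_mem A j))
    rw [zero_add, neg_add_cancel] at h3
    exact h3

/-- If the cohomology and the kernels are isomorphic, then so are the images. -/
theorem isoQ_of_ker {v : A.X ⟶ B.X} {w : B.X ⟶ A.X} (h : T.IsDerivedPair v w) {m : ℕ}
    (hi : T.Iso A.X B.X m) (hk : KerIso T A.X B.X A.L B.L j m) :
    (theoryQ T ν j hj).Iso A B m := by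
  apply isoQ_of_sameOp
  have h0 := sameAlg_of_iso T A.B B.B hi
  have h1 := sameOp_ker hk
  have hd : ∀ A : Obj T ν j hj, IsAlg T (dg (T.K A.X) m - A.e m) := fun A => by
    obtain ⟨Γ, hΓ⟩ := isAlg_dg T A.B m
    obtain ⟨Δ, hΔ⟩ := isAlg_e A m
    exact ⟨Γ - Δ, by rw [map_sub, hΓ, hΔ]⟩
  have hdd : ∀ A : Obj T ν j hj, dg (T.K A.X) m * dg (T.K A.X) m = dg (T.K A.X) m := fun A => by
    ext x
    exact dg_idem _ _ _
  have h2 : SameOp T (dg (T.K A.X) m) (dg (T.K B.X) m) := by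
    obtain ⟨a, b, ha, hb, hba, hab⟩ := h0
    rw [proj_single] at hba hab
    exact ⟨a, b, ha, hb, hba, hab⟩
  have h3 := sameOp_sub h A.B (isAlg_dg T A.B m) (hd A) (isAlg_dg T B.B m) (hd B) (hdd A)
    (by rw [sub_mul, mul_sub, mul_sub, hdd, dg_e, e_dg, e_e, sub_self, sub_zero]) (hdd B)
    (by rw [sub_mul, mul_sub, mul_sub, hdd, dg_e, e_dg, e_e, sub_self, sub_zero])
    (by rw [mul_sub, hdd, dg_e]) (by rw [sub_mul, hdd, e_dg])
    (by rw [mul_sub, hdd, dg_e]) (by rw [sub_mul, hdd, e_dg]) h2 h1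
  rwa [sub_sub_cancel, sub_sub_cancel] at h3

/-- Isomorphisms for the quotients are isomorphisms of the images. -/
theorem imIso_of_isoQ {m : ℕ} (h : (theoryQ T ν j hj).Iso A B m) :
    ImIso T A.X B.X A.L B.L j m := by
  obtain ⟨Z, hZ, Z', hZ', h1, h2⟩ := h
  have key : ∀ {A B : Obj T ν j hj} (Z : A ⟶ B) (Z' : B ⟶ A), Obj.val Z ∈ T.gr A.X B.X 0 →
      (∀ (p q : ℤ) (x : A.Q.R), x ∈ A.Q.H (p, q) → p + q = m → actQ Z' (actQ Z x) = x) →
      ∀ (p q : ℤ) (x : (T.K A.X).R), x ∈ (T.K A.X).H (p, q) → p + q = m →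
      (∃ y ∈ (T.K B.X).H (p, q), T.act (Obj.val Z) (A.L ^ j * x) = B.L ^ j * y) ∧
      T.act (Obj.val Z') (T.act (Obj.val Z) (A.L ^ j * x)) = A.L ^ j * x := by
    intro A B Z Z' hZ h1 p q x hx hpq
    have hr := res_mem (T.K A.X) A.P hj hx
    have h3 := (theoryQ T ν j hj).act_mem (X := A) (Y := B) (i := 0) (Γ := Z) hZ p q _ hr
    rw [add_zero, add_zero] at h3
    constructor
    · obtain ⟨y, hy, he⟩ := h3
      refine ⟨y, hy, ?_⟩
      rw [← psi_res, ← psi_res, ← psi_actQ]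
      exact congrArg B.ψ he.symm
    · rw [← psi_res, ← psi_actQ, ← psi_actQ]
      exact congrArg A.ψ (h1 p q _ hr hpq)
  exact ⟨Obj.val Z, hZ, Obj.val Z', hZ', key Z Z' hZ h1, key Z' Z hZ' h2⟩

end Run7.h30.Mot
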