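import Pool.Agent.Run7.h30.Mot.Psi

set_option autoImplicit false

open CategoryTheory Module Pool.Agent.W539.DI Pool.Agent.R929.DH Pool.Agent.R941.OH
  Pool.Agent.N174.OC Pool.Agent.Y107

universe u v

namespace Run7.h30.Mot

/-! ### Internal decompositions of submodules -/

section internal

variable {V : Type*} [AddCommGroup V] [Module ℚ V] {M : ℤ → Submodule ℚ V}
  (hM : DirectSum.IsInternal M)

include hM in
theorem mem_of_cmp {N : Submodule ℚ V} {x : V} (h : ∀ i, cmp hM i x ∈ N) : x ∈ N := by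
  letI := hM.chooseDecomposition
  have h1 : ∀ i, cmp hM i x = (DirectSum.decompose M x i : V) := fun i => rfl
  classical
  rw [← DirectSum.sum_support_decompose M x]
  refine Submodule.sum_mem _ fun i _ => ?_
  rw [← h1]
  exact h i

include hM in
theorem internal_comap (S : Submodule ℚ V) (hS : ∀ i x, x ∈ S → cmp hM i x ∈ S) :
    DirectSum.IsInternal (fun i => (M i).comap S.subtype) := by
  rw [DirectSum.isInternal_submodule_iff_iSupIndep_and_iSup_eq_top]
  constructor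
  · have h1 : iSupIndep (fun i => Submodule.map S.subtype ((M i).comap S.subtype)) :=
      hM.submodule_iSupIndep.mono fun i => Submodule.map_comap_le _ _
    intro i
    rw [Submodule.disjoint_def]
    intro a ha hb
    have h3 := h1 i
    rw [Submodule.disjoint_def] at h3
    apply Subtype.ext
    refine h3 _ ⟨a, ha, rfl⟩ ?_
    have h4 : S.subtype a ∈ Submodule.map S.subtype
        (⨆ k, ⨆ (_ : k ≠ i), (M k).comap S.subtype) := ⟨a, hb, rfl⟩
    simp only [Submodule.map_iSup] at h4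
    exact h4
  · rw [eq_top_iff]
    rintro ⟨x, hx⟩ -
    have h2 : x ∈ Submodule.map S.subtype (⨆ i, (M i).comap S.subtype) := by
      apply mem_of_cmp hM
      intro i
      refine ⟨⟨cmp hM i x, hS i x hx⟩, ?_, rfl⟩
      exact Submodule.mem_iSup_of_mem i (cmp_mem hM i x)
    obtain ⟨y, hy, hyx⟩ := h2
    have : y = ⟨x, hx⟩ := Subtype.ext hyx
    rwa [← this]

end internal

variable {𝒪 : Type u} [Category.{v} 𝒪] [Preadditive 𝒪] [Linear ℚ 𝒪] {n : ℕ}

/-- Varieties with a class `L` as in `PullbackAmple`, which is given by the correspondence `lc` (the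
push-forward of a divisor to the diagonal). -/
structure Obj (T : CorTheory 𝒪 n) (ν j : ℕ) (hj : j ≤ ν) where
  X : 𝒪
  L : (T.K X).R
  P : PullbackAmple (T.K X) L ν
  rat : (T.r X).IsRat L
  lc : X ⟶ X
  lc_mem : lc ∈ T.gr X X 1
  act_lc : ∀ x, T.act lc x = L * x
  B : T.ConjB X

variable {T : CorTheory 𝒪 n} {ν j : ℕ} {hj : j ≤ ν}

/-- the quotient ring -/
noncomputable abbrev Obj.Q (A : Obj T ν j hj) : KRing (n - j) := quotK (T.K A.X) A.P j hj

/-- the product with `L ^ j` -/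
noncomputable abbrev Obj.ψ (A : Obj T ν j hj) : A.Q.R →ₗ[ℂ] (T.K A.X).R := psiK A.P hj

/-- restriction -/
noncomputable abbrev Obj.res (A : Obj T ν j hj) : (T.K A.X).R →ₐ[ℂ] A.Q.R :=
  Run7.h30.res (T.K A.X) A.P hj

/-- the correspondences which act on the images of the multiplications by `L ^ j` -/
def homS (A B : Obj T ν j hj) : Submodule ℚ (A.X ⟶ B.X) where
  carrier := {Γ | ∀ a, ∃ b, B.ψ b = T.act Γ (A.ψ a)}
  add_mem' := fun {Γ Δ} h1 h2 a => by
    obtain ⟨b, hb⟩ := h1 a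
    obtain ⟨c, hc⟩ := h2 a
    exact ⟨b + c, by rw [map_add, map_add, hb, hc, LinearMap.add_apply]⟩
  zero_mem' := fun a => ⟨0, by rw [map_zero, map_zero, LinearMap.zero_apply]⟩
  smul_mem' := fun q Γ h a => by
    obtain ⟨b, hb⟩ := h a
    exact ⟨(q : ℂ) • b, by rw [map_smul, act_smul, LinearMap.smul_apply, hb]⟩

theorem mem_homS {A B : Obj T ν j hj} {Γ : A.X ⟶ B.X} :
    Γ ∈ homS A B ↔ ∀ a, ∃ b, B.ψ b = T.act Γ (A.ψ a) := Iff.rfl

instance : Category (Obj T ν j hj) where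
  Hom A B := homS A B
  id A := ⟨𝟙 A.X, fun a => ⟨a, by rw [T.act_id]; rfl⟩⟩
  comp {A B C} Γ Δ := ⟨Γ.1 ≫ Δ.1, fun a => by
    obtain ⟨b, hb⟩ := Γ.2 a
    obtain ⟨c, hc⟩ := Δ.2 b
    exact ⟨c, by rw [hc, T.act_comp, LinearMap.comp_apply, hb]⟩⟩
  id_comp _ := Subtype.ext (Category.id_comp _)
  comp_id _ := Subtype.ext (Category.comp_id _)
  assoc _ _ _ := Subtype.ext (Category.assoc _ _ _)

/-- the underlying correspondence -/
def Obj.val {A B : Obj T ν j hj} (Γ : A ⟶ B) : A.X ⟶ B.X := (Γ : homS A B).1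

theorem val_mem {A B : Obj T ν j hj} (Γ : A ⟶ B) (a : A.Q.R) :
    ∃ b, B.ψ b = T.act (Obj.val Γ) (A.ψ a) := (Γ : homS A B).2 a

theorem val_ext {A B : Obj T ν j hj} {Γ Δ : A ⟶ B} (h : Obj.val Γ = Obj.val Δ) : Γ = Δ :=
  Subtype.ext h

theorem val_id (A : Obj T ν j hj) : Obj.val (𝟙 A) = 𝟙 A.X := rfl

theorem val_comp {A B C : Obj T ν j hj} (Γ : A ⟶ B) (Δ : B ⟶ C) :
    Obj.val (Γ ≫ Δ) = Obj.val Γ ≫ Obj.val Δ := rfl

instance : Preadditive (Obj T ν j hj) where
  homGroup A B := inferInstanceAs (AddCommGroup (homS A B))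
  add_comp A B C f g k := Subtype.ext (Preadditive.add_comp _ _ _ _ _ _)
  comp_add A B C f g k := Subtype.ext (Preadditive.comp_add _ _ _ _ _ _)

instance : Linear ℚ (Obj T ν j hj) where
  homModule A B := inferInstanceAs (Module ℚ (homS A B))
  smul_comp A B C q f g := Subtype.ext (Linear.smul_comp _ _ _ _ _ _)
  comp_smul A B C f q g := Subtype.ext (Linear.comp_smul _ _ _ _ _ _)

/-- the underlying correspondence, as a linear map -/
def valL (A B : Obj T ν j hj) : (A ⟶ B) →ₗ[ℚ] (A.X ⟶ B.X) := (homS A B).subtype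

theorem valL_apply {A B : Obj T ν j hj} (Γ : A ⟶ B) : valL A B Γ = Obj.val Γ := rfl

theorem val_add {A B : Obj T ν j hj} (Γ Δ : A ⟶ B) :
    Obj.val (Γ + Δ) = Obj.val Γ + Obj.val Δ := rfl

end Run7.h30.Mot
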