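import Pool.Agent.Run7.h30.Mot.Tate

set_option autoImplicit false

open CategoryTheory Module Pool.Agent.W539.DI Pool.Agent.R929.DH Pool.Agent.R941.OH
  Pool.Agent.N174.OC Pool.Agent.Y107

universe u v

namespace Run7.h30.Mot

section ring

variable {E : Type} [Ring E]

/-- Two-sided ideals of semisimple rings are generated by central idempotents. -/
theorem exists_central [IsSemisimpleRing E] (I : Ideal E) (hI : ∀ a b : E, a ∈ I → a * b ∈ I) :
    ∃ e : E, e ∈ I ∧ (∀ x ∈ I, e * x = x) ∧ ∀ a, a * e = e * a := by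
  obtain ⟨e, he, h⟩ := IsSemisimpleRing.ideal_eq_span_idempotent I
  have he' : e * e = e := he
  have hmem : e ∈ I := by rw [h]; exact Ideal.mem_span_singleton_self e
  have hr : ∀ x ∈ I, x * e = x := by
    intro x hx
    rw [h, Ideal.mem_span_singleton'] at hx
    obtain ⟨r, rfl⟩ := hx
    rw [mul_assoc, he']
  have h0 : ∀ z : E, e * z * (1 - e) = 0 := by
    intro z
    have h1 := hr (e * z * (1 - e)) (hI _ _ (hI _ _ hmem))
    rw [← h1, mul_assoc _ (1 - e) e, sub_mul, one_mul, he', sub_self, mul_zero]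
  have hl : ∀ x ∈ I, e * x = x := by
    intro x hx
    obtain ⟨z, hz⟩ := exists_regular (x - e * x)
    have hy : (x - e * x) * e = x - e * x := hr _ (I.sub_mem hx (I.mul_mem_left e hx))
    have hy' : (1 - e) * (x - e * x) = x - e * x := by
      rw [sub_mul, one_mul, mul_sub, ← mul_assoc e e x, he', sub_self, sub_zero]
    have h1 : x - e * x = 0 := by
      rw [← hz]
      have h2 : (x - e * x) * z * (x - e * x) =
          (x - e * x) * (e * z * (1 - e)) * (x - e * x) := by
        calc (x - e * x) * z * (x - e * x) = ((x - e * x) * e) * z * ((1 - e) * (x - e * x)) := by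
              rw [hy, hy']
          _ = _ := by noncomm_ring
      rw [h2, h0, mul_zero, zero_mul]
    exact (sub_eq_zero.1 h1).symm
  refine ⟨e, hmem, hl, fun a => ?_⟩
  rw [← hl (a * e) (I.mul_mem_left a hmem), ← mul_assoc]
  exact hr _ (hI _ _ hmem)

variable [Algebra ℚ E] [FiniteDimensional ℚ E]

/-- the part of a left ideal on which the central element `ε` is the identity -/
def epsPart (ε : E) (hc : ∀ a, a * ε = ε * a) (S : Submodule E E) : Submodule E E where
  carrier := {x | x ∈ S ∧ ε * x = x}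
  add_mem' := fun {a b} ha hb => ⟨S.add_mem ha.1 hb.1, by rw [mul_add, ha.2, hb.2]⟩
  zero_mem' := ⟨S.zero_mem, mul_zero _⟩
  smul_mem' := fun a x hx => ⟨S.smul_mem a hx.1, by
    rw [smul_eq_mul, ← mul_assoc, ← hc, mul_assoc, hx.2]⟩

theorem tS_epsPart (ε : E) (hε : ε * ε = ε) (hc : ∀ a, a * ε = ε * a) (S : Submodule E E) (a : E) :
    tS (epsPart ε hc S) a = tS S (ε * a) := by
  let i : epsPart ε hc S →ₗ[ℚ] S :=
    { toFun := fun x => ⟨x.1, x.2.1⟩
      map_add' := fun _ _ => rfl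
      map_smul' := fun _ _ => rfl }
  let r : S →ₗ[ℚ] epsPart ε hc S :=
    { toFun := fun x => ⟨ε * x.1, S.smul_mem ε x.2, by rw [← mul_assoc, hε]⟩
      map_add' := fun x y => Subtype.ext (mul_add _ _ _)
      map_smul' := fun q x => Subtype.ext (by
        show ε * (q • (x : E)) = q • (ε * (x : E))
        rw [mul_smul_comm]) }
  have h1 := LinearMap.trace_comp_comm' (i ∘ₗ (Algebra.lsmul ℚ ℚ (epsPart ε hc S) a)) r
  have e1 : r ∘ₗ i ∘ₗ (Algebra.lsmul ℚ ℚ (epsPart ε hc S) a : epsPart ε hc S →ₗ[ℚ] _) =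
      Algebra.lsmul ℚ ℚ (epsPart ε hc S) a := by
    ext x
    show ε * (a * (x : E)) = a * (x : E)
    rw [← mul_assoc, ← hc, mul_assoc, x.2.2]
  have e2 : (i ∘ₗ (Algebra.lsmul ℚ ℚ (epsPart ε hc S) a : epsPart ε hc S →ₗ[ℚ] _)) ∘ₗ r =
      Algebra.lsmul ℚ ℚ S (ε * a) := by
    ext x
    show a * (ε * (x : E)) = ε * a * (x : E)
    rw [← mul_assoc, hc]
  rw [e1, e2] at h1
  exact h1

end ring

section forms

variable {E : Type} [Ring E] [Algebra ℚ E] [FiniteDimensional ℚ E] {n : ℕ} {K K' : KRing n}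
  (A : Act E K) (B : Act E K')

/-- the operators which kill the classes of type `(q + k, k)` -/
def annTyp (q : ℕ) : Ideal E where
  carrier := {a | ∀ x ∈ typ K q 0, A.ρ a x = 0}
  add_mem' := fun {a b} ha hb x hx => by
    rw [map_add, LinearMap.add_apply, ha x hx, hb x hx, add_zero]
  zero_mem' := fun x _ => by rw [map_zero, LinearMap.zero_apply]
  smul_mem' := fun a b hb x hx => by
    rw [smul_eq_mul, map_mul, Module.End.mul_apply, hb x hx, map_zero]

theorem exists_eps (q : ℕ) : ∃ ε : E, ε * ε = ε ∧ (∀ a, a * ε = ε * a) ∧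
    (∀ x ∈ typ K q 0, A.ρ ε x = x) ∧ ∀ a : E, (∀ x ∈ typ K q 0, A.ρ a x = 0) → ε * a = 0 := by
  have _ := A.semisimple
  obtain ⟨e, h1, h2, h3⟩ := exists_central (annTyp A q) (fun a b ha x hx => by
    rw [map_mul, Module.End.mul_apply]
    exact ha _ (A.typ_mem' b hx))
  have hee : e * e = e := h2 e h1
  refine ⟨1 - e, ?_, fun a => ?_, fun x hx => ?_, fun a ha => ?_⟩
  · rw [sub_mul, mul_sub, mul_sub, one_mul, one_mul, mul_one, hee, sub_self, sub_zero]
  · rw [mul_sub, sub_mul, one_mul, mul_one, h3]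
  · rw [map_sub, map_one, LinearMap.sub_apply, h1 x hx, sub_zero]
    rfl
  · rw [sub_mul, one_mul, h2 a ha, sub_self]

/-- In low degrees there are no such classes. -/
theorem p_ann {q j : ℕ} (hj : j < q) : ∀ x ∈ typ K q 0, A.ρ (A.L.p j) x = 0 := by
  intro x hx
  rw [A.rho_p]
  unfold typ at hx
  refine Submodule.iSup_induction (fun k : ℤ => K.H ((q : ℤ) + k, 0 + k))
    (motive := fun x => dg K j x = 0) hx (fun k y hy => ?_) (map_zero _) (fun y z hy hz => ?_)
  · rw [dg_of K hy]
    split_ifs with h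
    · have h1 : K.H ((q : ℤ) + k, 0 + k) = ⊥ := K.van _ _ (by right; omega)
      rw [h1] at hy
      exact hy
    · rfl
  · rw [map_add, hy, hz, add_zero]

theorem p_fix {q : ℕ} {x : K.R} (hx : x ∈ K.H ((q : ℤ), 0)) : A.ρ (A.L.p q) x = x := by
  rw [A.rho_p, dg_of K hx, if_pos (by omega)]

end forms

end Run7.h30.Mot
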