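import Pool.Agent.Run7.h30.Mot.AlgKer
import Pool.Agent.Run7.h30.FiveMain

set_option autoImplicit false

open CategoryTheory Module Pool.Agent.W539.DI Pool.Agent.R929.DH Pool.Agent.R941.OH
  Pool.Agent.N174.OC Pool.Agent.Y107

universe u v

namespace Run7.h30.Mot

theorem inj_bar {n : ℕ} {K : KRing n} {L : K.R} (hreal : K.bar L = L) {p q : ℤ} {j : ℕ}
    (h : ∀ x ∈ K.H (p, q), L ^ j * x = 0 → x = 0) : ∀ x ∈ K.H (q, p), L ^ j * x = 0 → x = 0 := by
  intro x hx hx0
  have h1 : ∀ j : ℕ, K.bar (L ^ j * x) = L ^ j * K.bar x := by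
    intro j
    induction j with
    | zero => rw [pow_zero, one_mul, one_mul]
    | succ j ih => rw [pow_succ', mul_assoc, K.bar_mul, hreal, ih, mul_assoc]
  have h2 := h (K.bar x) (K.bar_mem q p x hx) (by rw [← h1, hx0, map_zero])
  rw [← K.bar_bar x, h2, map_zero]

variable {𝒪 : Type u} [Category.{v} 𝒪] [Preadditive 𝒪] [Linear ℚ 𝒪]

/-- The one-dimensional part of degree zero. -/
theorem kerIso_deg_zero {n : ℕ} {T : CorTheory 𝒪 n} {X Y : 𝒪} {L : (T.K X).R} {L' : (T.K Y).R}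
    {ν : ℕ} (P : PullbackAmple (T.K X) L ν) (Q : PullbackAmple (T.K Y) L' ν)
    (hL : L ^ (ν + 1) = 0) (hL' : L' ^ (ν + 1) = 0) (j : ℕ) : KerIso T X Y L L' j 0 := by
  by_cases hj : j ≤ ν
  · have key : ∀ {X : 𝒪} {L : (T.K X).R}, PullbackAmple (T.K X) L ν → ∀ (p q : ℤ)
        (x : (T.K X).R), x ∈ (T.K X).H (p, q) → p + q = (0 : ℕ) → L ^ j * x = 0 → x = 0 := by
      intro X L P p q x hx hpq h0
      obtain ⟨c, hc⟩ := exists_coef_one x
      rw [dg_of (T.K X) hx, if_pos hpq] at hc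
      rw [hc, mul_smul_comm, mul_one] at h0
      rcases smul_eq_zero.1 h0 with h1 | h1
      · rw [hc, h1, zero_smul]
      · exact absurd h1 (pow_ne_le (T.K X) P.pow_ne hj)
    exact kerIso_of_inj (key P) (key Q)
  · obtain ⟨Z, hZ, Z', hZ', h1, h2⟩ := iso_zero T (X := X) (Y := Y)
    have e1 : L ^ j = 0 := by
      have e : j = (ν + 1) + (j - (ν + 1)) := by omega
      rw [e, pow_add, hL, zero_mul]
    have e2 : L' ^ j = 0 := by
      have e : j = (ν + 1) + (j - (ν + 1)) := by omega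
      rw [e, pow_add, hL', zero_mul]
    exact ⟨Z, hZ, Z', hZ', fun p q x hx hpq _ => ⟨by rw [e2, zero_mul], h1 p q x hx hpq⟩,
      fun p q x hx hpq _ => ⟨by rw [e1, zero_mul], h2 p q x hx hpq⟩⟩

section

variable {T : CorTheory 𝒪 5} {X Y : 𝒪} {v : X ⟶ Y} {w : Y ⟶ X} {L : (T.K X).R} {L' : (T.K Y).R}
  {ν : ℕ} (h : T.IsDerivedPair v w) (hB : T.ConjB X) (P : PullbackAmple (T.K X) L ν)
  (Q : PullbackAmple (T.K Y) L' ν) {lc : X ⟶ X} (lm : lc ∈ T.gr X X 1)
  (la : ∀ x, T.act lc x = L * x) {lc' : Y ⟶ Y} (lm' : lc' ∈ T.gr Y Y 1)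
  (la' : ∀ y, T.act lc' y = L' * y) (hi : ∀ x, T.act v (L * x) = L' * T.act v x)
  (hL : L ^ (ν + 1) = 0) (hL' : L' ^ (ν + 1) = 0)
  (x1 : ∀ x ∈ (T.K X).H (1, 0), L ^ 2 * x = 0 → x = 0)
  (y1 : ∀ y ∈ (T.K Y).H (1, 0), L' ^ 2 * y = 0 → y = 0)

include h P Q hi hL hL' x1 y1

theorem five_h10 : (T.K X).h 1 0 = (T.K Y).h 1 0 := by
  have hI : Intertwines (fm T h) L L' := fun x => by rw [fm_apply, fm_apply, hi]
  have key : ∀ {K : KRing 5} {L : K.R}, (∀ x ∈ K.H (1, 0), L ^ 2 * x = 0 → x = 0) →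
      kerDim K L 2 1 0 = 0 := by
    intro K L h1
    unfold kerDim
    rw [Submodule.finrank_eq_zero, Submodule.eq_bot_iff]
    intro x hx
    rw [Submodule.mem_inf, LinearMap.mem_ker, LinearMap.mulLeft_apply] at hx
    exact h1 x hx.1 hx.2
  have h3 := rk_add_kerDim (T.K X) L 2 1 0
  have h4 := rk_add_kerDim (T.K Y) L' 2 1 0
  rw [key x1] at h3
  rw [key y1] at h4
  by_cases h2 : 2 ≤ ν
  · have h5 := (rk_sums P Q hI h2 (a := 2) (b := 1) (by norm_num)).1
    have h6 : ∀ (K : KRing 5) (L : K.R), ∑ i ∈ Finset.range 5, rk K L 2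
        (((2 : ℕ) : ℤ) - 1 - 2 * (i : ℤ)) (((1 : ℕ) : ℤ) - 1 - 2 * (i : ℤ)) = rk K L 2 1 0 := by
      intro K L
      rw [Finset.sum_eq_single_of_mem 0 (Finset.mem_range.2 (by norm_num))]
      · norm_num
      · intro i _ hi
        exact rk_neg _ _ _ (by omega)
    rw [h6, h6] at h5
    omega
  · have e1 : L ^ 2 = 0 := by
      have e : 2 = (ν + 1) + (2 - (ν + 1)) := by omega
      rw [e, pow_add, hL, zero_mul]
    have e2 : L' ^ 2 = 0 := by
      have e : 2 = (ν + 1) + (2 - (ν + 1)) := by omega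
      rw [e, pow_add, hL', zero_mul]
    have h5 : ∀ (K : KRing 5) (L : K.R), L ^ 2 = 0 → rk K L 2 1 0 = 0 := by
      intro K L h0
      unfold rk
      rw [h0, LinearMap.mulLeft_zero_eq_zero, Submodule.map_zero, finrank_bot]
    rw [h5 _ _ e1] at h3
    rw [h5 _ _ e2] at h4
    omega

variable (x2 : ∀ x ∈ (T.K X).H (2, 0), L * x = 0 → x = 0)
  (y2 : ∀ y ∈ (T.K Y).H (2, 0), L' * y = 0 → y = 0)
  (x11 : ∀ x ∈ (T.K X).H (1, 1), (T.r X).IsRat x → ∃ Γ : X ⟶ X, T.act Γ 1 = x)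
  (y11 : ∀ y ∈ (T.K Y).H (1, 1), (T.r Y).IsRat y → ∃ Γ : Y ⟶ Y, T.act Γ 1 = y)
  (h11 : (T.K X).h 1 1 = (T.K Y).h 1 1)

include hB lm la lm' la' x2 y2 x11 y11 h11

/-- The kernels of `L` in degree two. -/
theorem five_two : KerIso T X Y L L' 1 2 := by
  have hB' := conjB_trans T hB h
  have hI : Intertwines (fm T h) L L' := fun x => by rw [fm_apply, fm_apply, hi]
  -- only classes of type `(1, 1)`
  have key : ∀ {K : KRing 5} {L : K.R}, K.bar L = L →
      (∀ x ∈ K.H (2, 0), L * x = 0 → x = 0) → ∀ (p q : ℤ) (x : K.R), x ∈ K.H (p, q) →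
      p + q = (2 : ℕ) → p ≠ 1 → L ^ 1 * x = 0 → x = 0 := by
    intro K L hr h2 p q x hx hpq hp h0
    by_cases hneg : p < 0 ∨ q < 0
    · exact Pool.Agent.R941.OH.zero_of K (by omega) hx
    · have h3 : ∀ x ∈ K.H (2, 0), L ^ 1 * x = 0 → x = 0 := fun x hx h0 =>
        h2 x hx (by rwa [pow_one] at h0)
      have h4 : (p = 2 ∧ q = 0) ∨ (p = 0 ∧ q = 2) := by push_cast at hpq; omega
      rcases h4 with ⟨rfl, rfl⟩ | ⟨rfl, rfl⟩
      · exact h3 x hx h0
      · exact inj_bar hr h3 x hx h0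
  have kX := key P.real x2
  have kY := key Q.real y2
  by_cases hν : 1 ≤ ν
  · let A : Obj T ν 1 hν := ⟨X, L, P, rat_of_cor la, lc, lm, la, hB⟩
    let B : Obj T ν 1 hν := ⟨Y, L', Q, rat_of_cor la', lc', lm', la', hB'⟩
    have hd : kerDim (T.K X) L 1 1 1 = kerDim (T.K Y) L' 1 1 1 := by
      have h5 := (rk_sums P Q hI hν (a := 2) (b := 2) (by norm_num)).1
      have h6 : ∀ (K : KRing 5) (L : K.R), ∑ i ∈ Finset.range 5, rk K L 1
          (((2 : ℕ) : ℤ) - 1 - 2 * (i : ℤ)) (((2 : ℕ) : ℤ) - 1 - 2 * (i : ℤ)) = rk K L 1 1 1 := by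
        intro K L
        rw [Finset.sum_eq_single_of_mem 0 (Finset.mem_range.2 (by norm_num))]
        · norm_num
        · intro i _ hi
          exact rk_neg _ _ _ (by omega)
      rw [h6, h6] at h5
      have h3 := rk_add_kerDim (T.K X) L 1 1 1
      have h4 := rk_add_kerDim (T.K Y) L' 1 1 1
      omega
    refine kerIso_of_alg (A := A) (B := B) (m := 2) h
      (span_of_lef x11 (isAlg_k A 2) (k_range A (a := 1) (b := 1) (by norm_num) kX))
      (span_of_lef y11 (isAlg_k B 2) (k_range B (a := 1) (b := 1) (by norm_num) kY))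
      (trace_k A (a := 1) (b := 1) (by norm_num) kX) ?_
    rw [trace_k B (a := 1) (b := 1) (by norm_num) kY]
    exact congrArg _ hd.symm
  · have h0 : ν = 0 := by omega
    subst h0
    have e1 : L = 0 := by rw [← pow_one L]; exact hL
    have e2 : L' = 0 := by rw [← pow_one L']; exact hL'
    have hr : ∀ (K : KRing 5), (∀ (p q : ℤ) (x : K.R), x ∈ K.H (p, q) → p + q = (2 : ℕ) → p ≠ 1 →
        x = 0) → LinearMap.IsProj (K.H (1, 1)) (dg K 2) := by
      intro K hK
      constructor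
      · intro x
        refine K.ind (P := fun x => dg K 2 x ∈ K.H (1, 1)) ?_ ?_ ?_ x
        · rw [map_zero]
          exact Submodule.zero_mem _
        · intro x y hx hy
          rw [map_add]
          exact Submodule.add_mem _ hx hy
        · intro p q x hx
          rw [dg_of K hx]
          split_ifs with hpq
          · by_cases hp : p = 1
            · have : q = 1 := by push_cast at hpq; omega
              subst hp this
              exact hx
            · rw [hK p q x hx hpq hp]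
              exact Submodule.zero_mem _
          · exact Submodule.zero_mem _
      · intro x hx
        rw [dg_of K hx, if_pos (by norm_num)]
    have pX := hr (T.K X) fun p q x hx hpq hp => kX p q x hx hpq hp (by rw [e1]; simp)
    have pY := hr (T.K Y) fun p q x hx hpq hp => kY p q x hx hpq hp (by rw [e2]; simp)
    have h1 : SameOp T (dg (T.K X) 2) (dg (T.K Y) 2) := by
      refine sameOp_of_alg h hB (isAlg_dg T hB 2) (isAlg_dg T hB' 2)
        (by ext x; exact dg_idem _ _ _) (by ext x; exact dg_idem _ _ _)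
        (span_of_lef x11 (isAlg_dg T hB 2) pX.1) (span_of_lef y11 (isAlg_dg T hB' 2) pY.1)
        pX.trace ?_
      rw [pY.trace]
      exact congrArg _ h11.symm
    have h2 : T.Iso X Y 2 := by
      apply iso_of_sameAlg T
      obtain ⟨a, b, ha, hb, hba, hab⟩ := h1
      refine ⟨a, b, ha, hb, ?_, ?_⟩
      · rw [proj_single]; exact hba
      · rw [proj_single]; exact hab
    obtain ⟨Z, hZ, Z', hZ', h3, h4⟩ := h2
    exact ⟨Z, hZ, Z', hZ', fun p q x hx hpq _ => ⟨by rw [e2]; simp, h3 p q x hx hpq⟩,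
      fun p q x hx hpq _ => ⟨by rw [e1]; simp, h4 p q x hx hpq⟩⟩

theorem five_iso : ∀ m, T.Iso X Y m := by
  refine criterion h hB P Q lm la lm' la' hi hL hL' fun j m hjm => ?_
  rcases Nat.eq_zero_or_pos j with h0 | h0
  · subst h0
    exact kerIso_zero m
  rcases Nat.eq_zero_or_pos m with h0' | h0'
  · subst h0'
    exact kerIso_deg_zero P Q hL hL' j
  have h6 : (j = 1 ∧ m = 2) ∨ (m = 1 ∧ j ≤ 2) := by omega
  rcases h6 with ⟨rfl, rfl⟩ | ⟨rfl, hj2⟩
  · exact five_two h hB P Q lm la lm' la' hi hL hL' x1 y1 x2 y2 x11 y11 h11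
  · have key : ∀ {K : KRing 5} {L : K.R}, K.bar L = L →
        (∀ x ∈ K.H (1, 0), L ^ 2 * x = 0 → x = 0) → ∀ (p q : ℤ) (x : K.R), x ∈ K.H (p, q) →
        p + q = (1 : ℕ) → L ^ j * x = 0 → x = 0 := by
      intro K L hr h2 p q x hx hpq h0
      by_cases hneg : p < 0 ∨ q < 0
      · exact Pool.Agent.R941.OH.zero_of K (by omega) hx
      · have h5 : L ^ 2 * x = 0 := by
          have e : 2 = (2 - j) + j := by omega
          rw [e, pow_add, mul_assoc, h0, mul_zero]
        have h4 : (p = 1 ∧ q = 0) ∨ (p = 0 ∧ q = 1) := by push_cast at hpq; omega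
        rcases h4 with ⟨rfl, rfl⟩ | ⟨rfl, rfl⟩
        · exact h2 x hx h5
        · exact inj_bar hr h2 x hx h5
    exact kerIso_of_inj (key P.real x1) (key Q.real y1)

end

end Run7.h30.Mot
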