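import Pool.Agent.Run7.h30.Mot.Main

set_option autoImplicit false

open CategoryTheory Module Pool.Agent.W539.DI Pool.Agent.R929.DH Pool.Agent.R941.OH
  Pool.Agent.N174.OC Pool.Agent.Y107

universe u v

namespace Run7.h30

variable {𝒪 : Type u} [Category.{v} 𝒪] [Preadditive 𝒪] [Linear ℚ 𝒪] {n : ℕ}

/-- The classes `x` of degree `m`, of some type, with `L ^ j x = 0`. -/
def kerSet (K : KRing n) (L : K.R) (j m : ℕ) : Set K.R :=
  {x | ∃ p q : ℤ, p + q = m ∧ x ∈ K.H (p, q) ∧ L ^ j * x = 0}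

/-- The products `L ^ j x` with the classes `x` of degree `m`, of some type. -/
def imSet (K : KRing n) (L : K.R) (j m : ℕ) : Set K.R :=
  {z | ∃ p q : ℤ, p + q = m ∧ ∃ x ∈ K.H (p, q), L ^ j * x = z}

/-- There are correspondences of degree zero which map the sets `S` and `S'` of cohomology classes
to each other and act on them as inverse bijections. -/
def IsoOn (T : CycTheory 𝒪 n) {X Y : 𝒪} (S : Set (T.K X).R) (S' : Set (T.K Y).R) : Prop :=
  ∃ Z ∈ T.gr X Y 0, ∃ Z' ∈ T.gr Y X 0, (∀ x ∈ S, T.act Z x ∈ S' ∧ T.act Z' (T.act Z x) = x) ∧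
    ∀ y ∈ S', T.act Z' y ∈ S ∧ T.act Z (T.act Z' y) = y

/-- The kernels of the multiplications by `L ^ j` on `H^m(X)` and by `L' ^ j` on `H^m(Y)` are
isomorphic by algebraic cycles. -/
def CycKerIso (T : CycTheory 𝒪 n) (X Y : 𝒪) (L : (T.K X).R) (L' : (T.K Y).R) (j m : ℕ) : Prop :=
  IsoOn T (kerSet (T.K X) L j m) (kerSet (T.K Y) L' j m)

/-- The images `L ^ j H^m(X)` and `L' ^ j H^m(Y)` are isomorphic by algebraic cycles. -/
def CycImIso (T : CycTheory 𝒪 n) (X Y : 𝒪) (L : (T.K X).R) (L' : (T.K Y).R) (j m : ℕ) : Prop :=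
  IsoOn T (imSet (T.K X) L j m) (imSet (T.K Y) L' j m)

/-- The classes `L` and `L'` have the properties of the pull-backs of ample classes from bases of
dimension `ν` (`PullbackAmple`), the multiplications by `L` and `L'` are given by correspondences of
degree one, the push-forwards of divisors to the diagonals, and `v` commutes with them. -/
structure AlongBase (T : CycTheory 𝒪 n) {X Y : 𝒪} (v : X ⟶ Y) (L : (T.K X).R) (L' : (T.K Y).R)
    (ν : ℕ) : Prop where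
  left : PullbackAmple (T.K X) L ν
  right : PullbackAmple (T.K Y) L' ν
  pow_left : L ^ (ν + 1) = 0
  pow_right : L' ^ (ν + 1) = 0
  cor_left : ∃ l ∈ T.gr X X 1, ∀ x, T.act l x = L * x
  cor_right : ∃ l ∈ T.gr Y Y 1, ∀ y, T.act l y = L' * y
  comm : ∀ x, T.act v (L * x) = L' * T.act v x

/-- `L ^ k` is injective on the classes of degree `n - 3 - k`, for all `k`. -/
def LowInj (K : KRing n) (L : K.R) : Prop :=
  ∀ (p q : ℤ) (k : ℕ), p + q + k + 3 = n → ∀ x ∈ K.H (p, q), L ^ k * x = 0 → x = 0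

/-- The homological motives of `X` and `Y` are isomorphic, and so are the Chow motives if
homologically trivial self-correspondences of `X` or of `Y` are nilpotent. -/
def MotIso (T : CycTheory 𝒪 n) (X Y : 𝒪) : Prop :=
  T.HomIso X Y ∧ (T.HomNilpotent X ∨ T.HomNilpotent Y → T.ChowIso X Y)

variable (T : CycTheory 𝒪 n) {X Y : 𝒪} {L : (T.K X).R} {L' : (T.K Y).R}

theorem kerIso_lin {j m : ℕ} : CycKerIso T X Y L L' j m ↔ Mot.KerIso T.lin X Y L L' j m := by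
  constructor
  · rintro ⟨Z, hZ, Z', hZ', h1, h2⟩
    refine ⟨Z, hZ, Z', hZ', fun p q x hx hpq h0 => ?_, fun p q y hy hpq h0 => ?_⟩
    · obtain ⟨⟨_, _, _, _, h3⟩, h4⟩ := h1 x ⟨p, q, hpq, hx, h0⟩
      exact ⟨h3, h4⟩
    · obtain ⟨⟨_, _, _, _, h3⟩, h4⟩ := h2 y ⟨p, q, hpq, hy, h0⟩
      exact ⟨h3, h4⟩
  · rintro ⟨Z, hZ, Z', hZ', h1, h2⟩
    refine ⟨Z, hZ, Z', hZ', ?_, ?_⟩
    · rintro x ⟨p, q, hpq, hx, h0⟩
      obtain ⟨h3, h4⟩ := h1 p q x hx hpq h0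
      have h5 := T.act_mem hZ p q x hx
      rw [add_zero, add_zero] at h5
      exact ⟨⟨p, q, hpq, h5, h3⟩, h4⟩
    · rintro y ⟨p, q, hpq, hy, h0⟩
      obtain ⟨h3, h4⟩ := h2 p q y hy hpq h0
      have h5 := T.act_mem hZ' p q y hy
      rw [add_zero, add_zero] at h5
      exact ⟨⟨p, q, hpq, h5, h3⟩, h4⟩

theorem imIso_lin {j m : ℕ} (h : Mot.ImIso T.lin X Y L L' j m) : CycImIso T X Y L L' j m := by
  obtain ⟨Z, hZ, Z', hZ', h1, h2⟩ := h
  refine ⟨Z, hZ, Z', hZ', ?_, ?_⟩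
  · rintro _ ⟨p, q, hpq, x, hx, rfl⟩
    obtain ⟨⟨y, hy, h3⟩, h4⟩ := h1 p q x hx hpq
    exact ⟨⟨p, q, hpq, y, hy, h3.symm⟩, h4⟩
  · rintro _ ⟨p, q, hpq, y, hy, rfl⟩
    obtain ⟨⟨x, hx, h3⟩, h4⟩ := h2 p q y hy hpq
    exact ⟨⟨p, q, hpq, x, hx, h3.symm⟩, h4⟩

/-- Isomorphisms in all degrees. -/
theorem motive_lin (hB : T.ConjB X) {v : X ⟶ Y} {w : Y ⟶ X} (h : T.IsDerivedPair v w)
    (hm : ∀ m, T.lin.Iso X Y m) :
    MotIso T X Y := by
  have h' := pair_lin T h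
  have hB1 : T.lin.ConjB X := hB
  have hB' := conjB_trans T.lin hB1 h'
  obtain ⟨Z, hZ, Z', hZ', h5, h6, h7⟩ := motive T.lin hB1 hB' hm h'
  refine ⟨⟨Z, hZ, Z', hZ', fun x => ?_, fun y => ?_⟩, fun hK => ⟨Z, hZ, h7 ?_⟩⟩
  · rw [← T.act_comp]
    exact congrArg (fun f : (T.K X).R →ₗ[ℂ] (T.K X).R => f x) h5
  · rw [← T.act_comp]
    exact congrArg (fun f : (T.K Y).R →ₗ[ℂ] (T.K Y).R => f y) h6
  · exact hK.imp (nil_lin T) (nil_lin T)

end Run7.h30
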