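import Pool.Agent.Run7.h30.Mot.FiveM
import Pool.Agent.Run7.h30.Mot.Pub

set_option autoImplicit false

open CategoryTheory Module Pool.Agent.W539.DI Pool.Agent.R929.DH Pool.Agent.R941.OH
  Pool.Agent.N174.OC Pool.Agent.Y107

universe u v

namespace Run7.h30

variable {𝒪 : Type u} [Category.{v} 𝒪] [Preadditive 𝒪] [Linear ℚ 𝒪] {n : ℕ}

/-- The theorem of Lefschetz on classes of type `(1, 1)`: rational classes of type `(1, 1)` are
algebraic, that is, direct images of the class `1` under correspondences. -/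
def LefschetzOneOne (T : CycTheory 𝒪 n) (X : 𝒪) : Prop :=
  ∀ x ∈ (T.K X).H (1, 1), (T.r X).IsRat x → ∃ Γ : X ⟶ X, T.act Γ 1 = x

/-- The products with `L ^ 2` and `L` are injective on holomorphic one-forms and two-forms. -/
def FormsInject (K : KRing n) (L : K.R) : Prop :=
  (∀ x ∈ K.H (1, 0), L ^ 2 * x = 0 → x = 0) ∧ ∀ x ∈ K.H (2, 0), L * x = 0 → x = 0

theorem formsInject_of_dim {K : KRing n} {L : K.R} {ν : ℕ} (P : PullbackAmple K L ν)
    (hν : 3 ≤ ν) : FormsInject K L := by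
  constructor
  · intro x hx h0
    refine P.hol 1 (by omega) x (by exact_mod_cast hx) ?_
    have e : ν - 1 = (ν - 3) + 2 := by omega
    rw [e, pow_add, mul_assoc, h0, mul_zero]
  · intro x hx h0
    refine P.hol 2 (by omega) x (by exact_mod_cast hx) ?_
    have e : ν - 2 = (ν - 3) + 1 := by omega
    rw [e, pow_succ, mul_assoc, h0, mul_zero]

theorem five_pub (T : CycTheory 𝒪 5) {X Y : 𝒪} (hB : T.ConjB X) {v : X ⟶ Y} {w : Y ⟶ X}
    (h : T.IsDerivedPair v w) {L : (T.K X).R} {L' : (T.K Y).R} {ν : ℕ}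
    (hL : AlongBase T v L L' ν) (hX : LefschetzOneOne T X) (hY : LefschetzOneOne T Y)
    (N : Numbers (T.K X)) (N' : Numbers (T.K Y)) (hD : HaveEquivalentDivisors N N')
    (x1 : FormsInject (T.K X) L) (y1 : FormsInject (T.K Y) L') : MotIso T X Y := by
  obtain ⟨P, Q, hl, hl', ⟨l, hl0, hl1⟩, ⟨l', hl0', hl1'⟩, hi⟩ := hL
  have h' := pair_lin T h
  have h10 : (T.K X).h 1 0 = (T.K Y).h 1 0 :=
    Mot.five_h10 (T := T.lin) h' P Q hi hl hl' x1.1 y1.1
  have h11 : (T.K X).h 1 1 = (T.K Y).h 1 1 := five_main N N' (fm T.lin h') h10 hD 1 1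
  exact motive_lin T hB h (Mot.five_iso (T := T.lin) h' hB P Q hl0 hl1 hl0' hl1' hi hl hl'
    x1.1 y1.1 x1.2 y1.2 hX hY h11)

end Run7.h30
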