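import Pool.Agent.Run7.h30.Mot.Eps

set_option autoImplicit false

open CategoryTheory Module Pool.Agent.W539.DI Pool.Agent.R929.DH Pool.Agent.R941.OH
  Pool.Agent.N174.OC Pool.Agent.Y107

universe u v

namespace Run7.h30.Mot

variable {𝒪 : Type u} [Category.{v} 𝒪] [Preadditive 𝒪] [Linear ℚ 𝒪]

/-- The holomorphic `q`-forms are isomorphic by algebraic cycles. -/
def FormIso {n : ℕ} (T : CorTheory 𝒪 n) (X Y : 𝒪) (q : ℕ) : Prop :=
  ∃ Z ∈ T.gr X Y 0, ∃ Z' ∈ T.gr Y X 0,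
    (∀ x ∈ (T.K X).H ((q : ℤ), 0), T.act Z' (T.act Z x) = x) ∧
    ∀ y ∈ (T.K Y).H ((q : ℤ), 0), T.act Z (T.act Z' y) = y

section top

variable {n : ℕ} {T : CorTheory 𝒪 n} {X Y : 𝒪} {v : X ⟶ Y} {w : Y ⟶ X}

/-- Forms of degree `n - 2`, `n - 1` and `n`. -/
theorem form_top (h : T.IsDerivedPair v w) (hB : T.ConjB X) {q : ℕ} (hq : q ≤ n)
    (hq' : n ≤ q + 2) : FormIso T X Y q := by
  have hB' := conjB_trans T hB h
  obtain ⟨A, hA⟩ := exists_actM T hB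
  obtain ⟨B, hB1⟩ := exists_actN T h hB'
  have hΦ : ∀ a x, (fm T h).φ (A.ρ a x) = B.ρ a ((fm T h).φ x) := by
    intro a x
    rw [hA, hB1, fm_apply, fm_apply, rhoF_apply]
    simp only [LinearMap.comp_apply, wv T h]
  obtain ⟨ε, he, hc, hfix, hann⟩ := exists_eps A q
  -- the same for `Y`
  have hfixB : ∀ y ∈ typ (T.K Y) q 0, B.ρ ε y = y := by
    intro y hy
    have h1 : T.act w y ∈ typ (T.K X) q 0 := by
      have h2 := (fm T h).hodge q 0
      unfold typ at hy ⊢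
      rw [← h2] at hy
      obtain ⟨x, hx, hxy⟩ := hy
      have h3 : T.act v x = y := hxy
      rw [← h3, wv T h]
      exact hx
    have h2 := hΦ ε (T.act w y)
    rw [hfix _ h1, fm_apply, vw T h] at h2
    exact h2.symm
  have hannB : ∀ a : Ealg T X, (∀ y ∈ typ (T.K Y) q 0, B.ρ a y = 0) → ε * a = 0 := by
    intro a ha
    apply hann
    intro x hx
    have h1 := ha _ (mem_typ_phi (fm T h) hx)
    rw [← hΦ] at h1
    exact (LinearEquiv.map_eq_zero_iff _).1 h1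
  have hzA : ∀ j, j < q → ε * A.L.p j = 0 := fun j hj => hann _ (p_ann A hj)
  have hzB : ∀ j, j < q → ε * B.L.p j = 0 := fun j hj => hannB _ (p_ann B hj)
  -- the multiplicities of the motives
  have key : ∀ S : Submodule (Ealg T X) (Ealg T X),
      tS S (ε * A.L.p q) = tS S (ε * B.L.p q) := by
    intro S
    set S' := epsPart ε hc S with hS'
    have hz1 : ∀ j, j < q → tS S' (A.L.p j) = 0 := fun j hj => by
      rw [hS', tS_epsPart ε he hc, hzA j hj, map_zero]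
    have hz2 : ∀ j, j < q → tS S' (B.L.p j) = 0 := fun j hj => by
      rw [hS', tS_epsPart ε he hc, hzB j hj, map_zero]
    have goal : tS S' (A.L.p q) = tS S' (B.L.p q) := by
      have h3 : q + 2 = n ∨ q + 1 = n ∨ q = n := by omega
      rcases h3 with h3 | h3 | h3
      · have h4 : ∑ j ∈ (Finset.range n).filter (fun j => (n - j) % 4 = 2), tS S' (A.L.p j) =
            ∑ j ∈ (Finset.range n).filter (fun j => (n - j) % 4 = 2), tS S' (B.L.p j) :=
          core1 A B (fm T h) hΦ S'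
        have hm : q ∈ (Finset.range n).filter (fun j => (n - j) % 4 = 2) := by
          rw [Finset.mem_filter, Finset.mem_range]; omega
        refine solve (a := fun j => tS S' (A.L.p j)) (b := fun j => tS S' (B.L.p j)) hm h4
          fun j hj hne => ?_
        rw [Finset.mem_filter, Finset.mem_range] at hj
        show tS S' (A.L.p j) = tS S' (B.L.p j)
        rw [hz1 j (by omega), hz2 j (by omega)]
      · have h4 : ∑ j ∈ (Finset.range n).filter (fun j => (n - j) % 2 = 1), tS S' (A.L.p j) =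
            ∑ j ∈ (Finset.range n).filter (fun j => (n - j) % 2 = 1), tS S' (B.L.p j) :=
          core3 A B (fm T h) hΦ S'
        have hm : q ∈ (Finset.range n).filter (fun j => (n - j) % 2 = 1) := by
          rw [Finset.mem_filter, Finset.mem_range]; omega
        refine solve (a := fun j => tS S' (A.L.p j)) (b := fun j => tS S' (B.L.p j)) hm h4
          fun j hj hne => ?_
        rw [Finset.mem_filter, Finset.mem_range] at hj
        show tS S' (A.L.p j) = tS S' (B.L.p j)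
        rw [hz1 j (by omega), hz2 j (by omega)]
      · have h4 : tS S' (A.L.p n) + 2 * ∑ j ∈ (Finset.range n).filter (fun j => (n - j) % 4 = 0),
              tS S' (A.L.p j) =
            tS S' (B.L.p n) + 2 * ∑ j ∈ (Finset.range n).filter (fun j => (n - j) % 4 = 0),
              tS S' (B.L.p j) := core2 A B (fm T h) hΦ S'
        have h5 : ∑ j ∈ (Finset.range n).filter (fun j => (n - j) % 4 = 0), tS S' (A.L.p j) =
            ∑ j ∈ (Finset.range n).filter (fun j => (n - j) % 4 = 0), tS S' (B.L.p j) := by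
          refine Finset.sum_congr rfl fun j hj => ?_
          rw [Finset.mem_filter, Finset.mem_range] at hj
          rw [hz1 j (by omega), hz2 j (by omega)]
        rw [h5] at h4
        rw [h3]
        linarith
    rwa [hS', tS_epsPart ε he hc, tS_epsPart ε he hc] at goal
  have hpp : ∀ {K : KRing n} (C : Act (Ealg T X) K), C.L.p q * C.L.p q = C.L.p q := by
    intro K C
    apply C.inj
    rw [map_mul, C.rho_p]
    ext x
    exact dg_idem K q x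
  have hee : ∀ {K : KRing n} (C : Act (Ealg T X) K),
      ε * C.L.p q * (ε * C.L.p q) = ε * C.L.p q := by
    intro K C
    calc ε * C.L.p q * (ε * C.L.p q) = ε * (C.L.p q * ε) * C.L.p q := by
          simp only [mul_assoc]
      _ = (ε * ε) * (C.L.p q * C.L.p q) := by rw [hc]; simp only [mul_assoc]
      _ = _ := by rw [he, hpp]
  have h1 : SameOp T (rhoE T X (ε * A.L.p q)) (rhoF T h (ε * B.L.p q)) :=
    (sameOp_iff h A (hee A) (hee B)).2 key
  obtain ⟨_, _, ⟨Γ, rfl⟩, ⟨Δ, rfl⟩, g1, g2⟩ := h1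
  have g1' : ∀ x, T.act Δ (T.act Γ x) = A.ρ (ε * A.L.p q) x := fun x => by
    rw [hA]
    exact congrArg (fun f : (T.K X).R →ₗ[ℂ] (T.K X).R => f x) g1
  have g2' : ∀ y, T.act Γ (T.act Δ y) = B.ρ (ε * B.L.p q) y := fun y => by
    rw [hB1]
    exact congrArg (fun f : (T.K Y).R →ₗ[ℂ] (T.K Y).R => f y) g2
  have fin : ∀ {X Y : 𝒪} (Γ : X ⟶ Y) (Δ : Y ⟶ X) (P : Module.End ℂ (T.K X).R)
      (Q : Module.End ℂ (T.K Y).R), (∀ x, T.act Δ (T.act Γ x) = P x) →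
      (∀ y, T.act Γ (T.act Δ y) = Q y) → (∀ x ∈ (T.K X).H ((q : ℤ), 0), P x = x) →
      (∀ y, dg (T.K Y) q (Q y) = Q y) → ∀ x ∈ (T.K X).H ((q : ℤ), 0),
      T.act (c0 T Δ) (T.act (c0 T Γ) x) = x := by
    intro X Y Γ Δ P Q g1 g2 hP hQ x hx
    have hm : ((q : ℤ) + 0) = (q : ℕ) := by omega
    have h3 : Q (T.act Γ x) = T.act Γ x := by rw [← g2, g1, hP x hx]
    have h4 : T.act (c0 T Γ) x = T.act Γ x := by
      rw [act_c0 T Γ hx hm, ← h3, hQ]
    have h5 := T.act_mem (c0_mem T Γ) _ _ x hx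
    rw [add_zero, add_zero] at h5
    rw [act_c0 T Δ h5 hm, h4, g1, hP x hx, dg_of (T.K X) hx, if_pos hm]
  have hdgX : ∀ x, dg (T.K X) q (A.ρ (ε * A.L.p q) x) = A.ρ (ε * A.L.p q) x := by
    intro x
    rw [← A.rho_p, ← Module.End.mul_apply, ← map_mul, ← mul_assoc, hc, mul_assoc, hpp]
  have hdgY : ∀ y, dg (T.K Y) q (B.ρ (ε * B.L.p q) y) = B.ρ (ε * B.L.p q) y := by
    intro y
    rw [← B.rho_p, ← Module.End.mul_apply, ← map_mul, ← mul_assoc, hc, mul_assoc, hpp]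
  refine ⟨c0 T Γ, c0_mem T Γ, c0 T Δ, c0_mem T Δ, fin Γ Δ _ _ g1' g2' (fun x hx => ?_) hdgY,
    fin Δ Γ _ _ g2' g1' (fun y hy => ?_) hdgX⟩
  · rw [map_mul, Module.End.mul_apply, p_fix A hx]
    exact hfix x (mem_typ (T.K X) hx)
  · rw [map_mul, Module.End.mul_apply, p_fix B hy]
    exact hfixB y (mem_typ (T.K Y) hy)

end top

variable {n : ℕ} {T : CorTheory 𝒪 n} {ν j : ℕ} {hj : j ≤ ν} {A B : Obj T ν j hj}

/-- The kernels of `L ^ j` and `L' ^ j` on the holomorphic `q`-forms are isomorphic by algebraic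
cycles. -/
def KerFormIso (T : CorTheory 𝒪 n) (X Y : 𝒪) (L : (T.K X).R) (L' : (T.K Y).R) (j q : ℕ) : Prop :=
  ∃ Z ∈ T.gr X Y 0, ∃ Z' ∈ T.gr Y X 0,
    (∀ x ∈ (T.K X).H ((q : ℤ), 0), L ^ j * x = 0 →
      L' ^ j * T.act Z x = 0 ∧ T.act Z' (T.act Z x) = x) ∧
    ∀ y ∈ (T.K Y).H ((q : ℤ), 0), L' ^ j * y = 0 →
      L ^ j * T.act Z' y = 0 ∧ T.act Z (T.act Z' y) = y

theorem kerForm_of_inj {X Y : 𝒪} {L : (T.K X).R} {L' : (T.K Y).R} {j q : ℕ}
    (h1 : ∀ x ∈ (T.K X).H ((q : ℤ), 0), L ^ j * x = 0 → x = 0)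
    (h2 : ∀ y ∈ (T.K Y).H ((q : ℤ), 0), L' ^ j * y = 0 → y = 0) : KerFormIso T X Y L L' j q := by
  refine ⟨0, Submodule.zero_mem _, 0, Submodule.zero_mem _, fun x hx h0 => ?_, fun y hy h0 => ?_⟩
  · rw [h1 x hx h0]
    simp
  · rw [h2 y hy h0]
    simp

/-- From the quotients to the varieties. -/
theorem form_of_formQ {q : ℕ} (h : FormIso (theoryQ T ν j hj) A B q)
    (hk : KerFormIso T A.X B.X A.L B.L j q) : FormIso T A.X B.X q := by
  obtain ⟨Z1, hZ1, Z1', hZ1', h1, h2⟩ := h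
  obtain ⟨Z0, hZ0, Z0', hZ0', h3, h4⟩ := hk
  have hz : ∀ {A B : Obj T ν j hj} (Z1 : A ⟶ B) (Z0 : A.X ⟶ B.X) (x : (T.K A.X).R),
      T.act ((𝟙 A.X - A.lp j ≫ A.M) ≫ Z0 + A.lp j ≫ Obj.val Z1 ≫ B.M) x =
      T.act Z0 (x - T.act A.M (A.L ^ j * x)) + T.act B.M (B.ψ (actQ Z1 (A.res x))) := by
    intro A B Z1 Z0 x
    rw [map_add, LinearMap.add_apply, T.act_comp, T.act_comp, T.act_comp, map_sub, T.act_id,
      T.act_comp, LinearMap.comp_apply, LinearMap.comp_apply, LinearMap.comp_apply,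
      LinearMap.sub_apply, LinearMap.comp_apply, act_lp, psi_actQ, psi_res]
    rfl
  have hdeg : ∀ {A B : Obj T ν j hj} (Z1 : A ⟶ B) (Z0 : A.X ⟶ B.X), Obj.val Z1 ∈ T.gr A.X B.X 0 →
      Z0 ∈ T.gr A.X B.X 0 →
      (𝟙 A.X - A.lp j ≫ A.M) ≫ Z0 + A.lp j ≫ Obj.val Z1 ≫ B.M ∈ T.gr A.X B.X 0 := by
    intro A B Z1 Z0 hZ1 hZ0
    refine Submodule.add_mem _ ?_ ?_
    · have e1 := T.comp_mem (lp_mem A j) (M_mem A)
      rw [add_neg_cancel] at e1
      have e2 := T.comp_mem (Submodule.sub_mem _ (T.id_mem A.X) e1) hZ0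
      rwa [add_zero] at e2
    · have e1 := T.comp_mem (lp_mem A j) (T.comp_mem hZ1 (M_mem B))
      rwa [zero_add, add_neg_cancel] at e1
  have main : ∀ {A B : Obj T ν j hj} (Z1 : A ⟶ B) (Z0 : A.X ⟶ B.X) (Z1' : B ⟶ A)
      (Z0' : B.X ⟶ A.X),
      (∀ x ∈ A.Q.H ((q : ℤ), 0), actQ Z1' (actQ Z1 x) = x) →
      (∀ x ∈ (T.K A.X).H ((q : ℤ), 0), A.L ^ j * x = 0 →
        B.L ^ j * T.act Z0 x = 0 ∧ T.act Z0' (T.act Z0 x) = x) →
      ∀ x ∈ (T.K A.X).H ((q : ℤ), 0),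
      T.act ((𝟙 B.X - B.lp j ≫ B.M) ≫ Z0' + B.lp j ≫ Obj.val Z1' ≫ A.M)
        (T.act ((𝟙 A.X - A.lp j ≫ A.M) ≫ Z0 + A.lp j ≫ Obj.val Z1 ≫ B.M) x) = x := by
    intro A B Z1 Z0 Z1' Z0' h1 h3 x hx
    obtain ⟨y, hy⟩ : ∃ y, y =
      T.act ((𝟙 A.X - A.lp j ≫ A.M) ≫ Z0 + A.lp j ≫ Obj.val Z1 ≫ B.M) x := ⟨_, rfl⟩
    rw [← hy]
    have hy1 := hz Z1 Z0 x
    rw [← hy] at hy1
    have hM := T.act_mem (M_mem A) _ _ _ ((T.K A.X).pow_mul_mem A.P.mem j hx)
    rw [add_neg_cancel_right, add_neg_cancel_right] at hM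
    have hk := Submodule.sub_mem _ hx hM
    have hk0 : A.L ^ j * (x - T.act A.M (A.L ^ j * x)) = 0 := by rw [mul_sub, M_spec, sub_self]
    obtain ⟨h5, h6⟩ := h3 _ hk hk0
    have hLy : B.L ^ j * y = B.ψ (actQ Z1 (A.res x)) := by
      rw [hy1, mul_add, h5, M_psi, zero_add]
    have hres : B.res y = actQ Z1 (A.res x) := by
      apply psiK_inj B.P hj
      show B.ψ (B.res y) = _
      rw [psi_res, hLy]
    rw [hz, hLy, hres, h1 _ (res_mem (T.K A.X) A.P hj hx), psi_res]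
    have h7 : y - T.act B.M (B.ψ (actQ Z1 (A.res x))) =
        T.act Z0 (x - T.act A.M (A.L ^ j * x)) := by
      rw [hy1, add_sub_cancel_right]
    rw [h7, h6, sub_add_cancel]
  exact ⟨_, hdeg Z1 Z0 hZ1 hZ0, _, hdeg Z1' Z0' hZ1' hZ0', main Z1 Z0 Z1' Z0' h1 h3,
    main Z1' Z0' Z1 Z0 h2 h4⟩

section

variable {X Y : 𝒪} {v : X ⟶ Y} {w : Y ⟶ X} {L : (T.K X).R} {L' : (T.K Y).R}
  (h : T.IsDerivedPair v w) (hB : T.ConjB X) (P : PullbackAmple (T.K X) L ν)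
  (Q : PullbackAmple (T.K Y) L' ν) {lc : X ⟶ X} (lm : lc ∈ T.gr X X 1)
  (la : ∀ x, T.act lc x = L * x) {lc' : Y ⟶ Y} (lm' : lc' ∈ T.gr Y Y 1)
  (la' : ∀ y, T.act lc' y = L' * y) (hi : ∀ x, T.act v (L * x) = L' * T.act v x)

include h hB P Q lm la lm' la' hi

theorem form_iso {q : ℕ} (hq : q + 2 ≤ n) (hj : n - 2 - q ≤ ν)
    (hk : KerFormIso T X Y L L' (n - 2 - q) q) : FormIso T X Y q := by
  let A : Obj T ν (n - 2 - q) hj := ⟨X, L, P, rat_of_cor la, lc, lm, la, hB⟩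
  let B : Obj T ν (n - 2 - q) hj := ⟨Y, L', Q, rat_of_cor la', lc', lm', la', conjB_trans T hB h⟩
  obtain ⟨v', w', h'⟩ := pairQ (A := A) (B := B) h hi
  exact form_of_formQ (A := A) (B := B) (form_top h' (conjB_Q A) (by omega) (by omega)) hk

end

/-- Gluing over all degrees. -/
theorem form_glue {X Y : 𝒪} (hX : T.ConjB X) (hY : T.ConjB Y) (h : ∀ q ≤ n, FormIso T X Y q) :
    ∃ Z ∈ T.gr X Y 0, ∃ Z' ∈ T.gr Y X 0,
      (∀ (q : ℕ), ∀ x ∈ (T.K X).H ((q : ℤ), 0), T.act Z' (T.act Z x) = x) ∧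
      ∀ (q : ℕ), ∀ y ∈ (T.K Y).H ((q : ℤ), 0), T.act Z (T.act Z' y) = y := by
  have h' : ∀ q, FormIso T X Y q := by
    intro q
    by_cases hq : q ≤ n
    · exact h q hq
    · refine ⟨0, Submodule.zero_mem _, 0, Submodule.zero_mem _, fun x hx => ?_, fun y hy => ?_⟩
      · rw [zero_of (T.K X) (by omega) hx]
        simp
      · rw [zero_of (T.K Y) (by omega) hy]
        simp
  choose Zm g1 Zm' g2 k1 k2 using h'
  obtain ⟨Z, hZ, hz⟩ := glue T hX Zm g1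
  obtain ⟨Z', hZ', hz'⟩ := glue T hY Zm' g2
  refine ⟨Z, hZ, Z', hZ', fun q x hx => ?_, fun q y hy => ?_⟩
  · have h3 := T.act_mem hZ _ _ x hx
    rw [add_zero, add_zero] at h3
    rw [hz' q _ _ _ h3 (by omega), hz q _ _ x hx (by omega), k1 q x hx]
  · have h3 := T.act_mem hZ' _ _ y hy
    rw [add_zero, add_zero] at h3
    rw [hz q _ _ _ h3 (by omega), hz' q _ _ y hy (by omega), k2 q y hy]

end Run7.h30.Mot
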