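import Pool.Agent.Run7.h30.Mot.FormsM
import Pool.Agent.Run7.h30.Mot.Pub

set_option autoImplicit false

open CategoryTheory Module Pool.Agent.W539.DI Pool.Agent.R929.DH Pool.Agent.R941.OH
  Pool.Agent.N174.OC Pool.Agent.Y107

universe u v

namespace Run7.h30

variable {𝒪 : Type u} [Category.{v} 𝒪] [Preadditive 𝒪] [Linear ℚ 𝒪] {n : ℕ}

/-- The holomorphic `q`-forms. -/
def formSet (K : KRing n) (q : ℕ) : Set K.R := {x | x ∈ K.H ((q : ℤ), 0)}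

/-- The holomorphic `q`-forms `x` with `L ^ j x = 0`. -/
def kerFormSet (K : KRing n) (L : K.R) (j q : ℕ) : Set K.R :=
  {x | x ∈ K.H ((q : ℤ), 0) ∧ L ^ j * x = 0}

/-- There are correspondences of degree zero which act as inverse bijections on the holomorphic
forms of all degrees. -/
def AllForms (T : CycTheory 𝒪 n) (X Y : 𝒪) : Prop :=
  ∃ Z ∈ T.gr X Y 0, ∃ Z' ∈ T.gr Y X 0, ∀ q : ℕ,
    (∀ x ∈ formSet (T.K X) q, T.act Z x ∈ formSet (T.K Y) q ∧ T.act Z' (T.act Z x) = x) ∧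
    ∀ y ∈ formSet (T.K Y) q, T.act Z' y ∈ formSet (T.K X) q ∧ T.act Z (T.act Z' y) = y

variable (T : CycTheory 𝒪 n) {X Y : 𝒪} {L : (T.K X).R} {L' : (T.K Y).R}

theorem form_lin {q : ℕ} (h : Mot.FormIso T.lin X Y q) :
    IsoOn T (formSet (T.K X) q) (formSet (T.K Y) q) := by
  obtain ⟨Z, hZ, Z', hZ', h1, h2⟩ := h
  refine ⟨Z, hZ, Z', hZ', fun x hx => ⟨?_, h1 x hx⟩, fun y hy => ⟨?_, h2 y hy⟩⟩
  · have h3 := T.act_mem hZ _ _ x hx
    rwa [add_zero, add_zero] at h3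
  · have h3 := T.act_mem hZ' _ _ y hy
    rwa [add_zero, add_zero] at h3

theorem kerForm_lin {j q : ℕ}
    (h : IsoOn T (kerFormSet (T.K X) L j q) (kerFormSet (T.K Y) L' j q)) :
    Mot.KerFormIso T.lin X Y L L' j q := by
  obtain ⟨Z, hZ, Z', hZ', h1, h2⟩ := h
  exact ⟨Z, hZ, Z', hZ', fun x hx h0 => ⟨(h1 x ⟨hx, h0⟩).1.2, (h1 x ⟨hx, h0⟩).2⟩,
    fun y hy h0 => ⟨(h2 y ⟨hy, h0⟩).1.2, (h2 y ⟨hy, h0⟩).2⟩⟩

theorem all_forms (hB : T.ConjB X) {v : X ⟶ Y} {w : Y ⟶ X} (h : T.IsDerivedPair v w)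
    (hq : ∀ q ≤ n, Mot.FormIso T.lin X Y q) : AllForms T X Y := by
  have h' := pair_lin T h
  have hB1 : T.lin.ConjB X := hB
  obtain ⟨Z, hZ, Z', hZ', h1, h2⟩ := Mot.form_glue hB1 (conjB_trans T.lin hB1 h') hq
  refine ⟨Z, hZ, Z', hZ', fun q => ⟨fun x hx => ⟨?_, h1 q x hx⟩, fun y hy => ⟨?_, h2 q y hy⟩⟩⟩
  · have h3 := T.act_mem hZ _ _ x hx
    rwa [add_zero, add_zero] at h3
  · have h3 := T.act_mem hZ' _ _ y hy
    rwa [add_zero, add_zero] at h3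

theorem all_forms_of_ker (hB : T.ConjB X) {v : X ⟶ Y} {w : Y ⟶ X} (h : T.IsDerivedPair v w)
    {ν : ℕ} (hL : AlongBase T v L L' ν)
    (hk : ∀ q, q + 2 ≤ n → Mot.KerFormIso T.lin X Y L L' (n - 2 - q) q) : AllForms T X Y := by
  obtain ⟨P, Q, hl, hl', ⟨l, hl0, hl1⟩, ⟨l', hl0', hl1'⟩, hi⟩ := hL
  have h' := pair_lin T h
  refine all_forms T hB h fun q hq => ?_
  by_cases hq2 : q + 2 ≤ n
  · by_cases hj : n - 2 - q ≤ ν
    · exact Mot.form_iso (T := T.lin) h' hB P Q hl0 hl1 hl0' hl1' hi hq2 hj (hk q hq2)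
    · obtain ⟨Z, hZ, Z', hZ', h1, h2⟩ := hk q hq2
      have e : n - 2 - q = (ν + 1) + (n - 2 - q - (ν + 1)) := by omega
      have e1 : ∀ x : (T.K X).R, L ^ (n - 2 - q) * x = 0 := fun x => by
        rw [e, pow_add, hl, zero_mul, zero_mul]
      have e2 : ∀ y : (T.K Y).R, L' ^ (n - 2 - q) * y = 0 := fun y => by
        rw [e, pow_add, hl', zero_mul, zero_mul]
      exact ⟨Z, hZ, Z', hZ', fun x hx => (h1 x hx (e1 x)).2, fun y hy => (h2 y hy (e2 y)).2⟩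
  · exact Mot.form_top h' hB hq (by omega)

end Run7.h30
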