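import Pool.Agent.Run7.h30.Mot.Cancel
import Pool.Agent.N174.OC.Pub

set_option autoImplicit false

open CategoryTheory Module Pool.Agent.W539.DI Pool.Agent.R929.DH Pool.Agent.R941.OH
  Pool.Agent.N174.OC Pool.Agent.Y107

universe u v

namespace Run7.h30.Mot

variable {𝒪 : Type u} [Category.{v} 𝒪] [Preadditive 𝒪] [Linear ℚ 𝒪] {n : ℕ}
  {T : CorTheory 𝒪 n}

theorem rat_of_cor {X : 𝒪} {L : (T.K X).R} {lc : X ⟶ X} (h : ∀ x, T.act lc x = L * x) :
    (T.r X).IsRat L := by
  have h1 : L = T.act lc 1 := by rw [h, mul_one]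
  rw [h1]
  exact T.act_rat lc 1 (T.r X).one_rat

section

variable {X Y : 𝒪} {v : X ⟶ Y} {w : Y ⟶ X} {L : (T.K X).R} {L' : (T.K Y).R} {ν : ℕ}

theorem kerIso_zero (m : ℕ) : KerIso T X Y L L' 0 m := by
  refine ⟨0, Submodule.zero_mem _, 0, Submodule.zero_mem _, fun p q x _ _ h => ?_,
    fun p q x _ _ h => ?_⟩
  · rw [pow_zero, one_mul] at h
    subst h
    simp
  · rw [pow_zero, one_mul] at h
    subst h
    simp

theorem iso_of_kerIso_top {j m : ℕ} (hL : L ^ j = 0) (hL' : L' ^ j = 0)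
    (h : KerIso T X Y L L' j m) : T.Iso X Y m := by
  obtain ⟨Z, hZ, Z', hZ', h1, h2⟩ := h
  exact ⟨Z, hZ, Z', hZ', fun p q x hx hpq => (h1 p q x hx hpq (by rw [hL, zero_mul])).2,
    fun p q x hx hpq => (h2 p q x hx hpq (by rw [hL', zero_mul])).2⟩

/-- Injectivity gives isomorphisms of the kernels. -/
theorem kerIso_of_inj {j m : ℕ}
    (hX : ∀ (p q : ℤ) (x : (T.K X).R), x ∈ (T.K X).H (p, q) → p + q = m → L ^ j * x = 0 → x = 0)
    (hY : ∀ (p q : ℤ) (y : (T.K Y).R), y ∈ (T.K Y).H (p, q) → p + q = m → L' ^ j * y = 0 →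
      y = 0) : KerIso T X Y L L' j m := by
  refine ⟨0, Submodule.zero_mem _, 0, Submodule.zero_mem _, fun p q x hx hpq h => ?_,
    fun p q x hx hpq h => ?_⟩
  · rw [hX p q x hx hpq h]
    simp
  · rw [hY p q x hx hpq h]
    simp

theorem kerIso_low
    (h1 : ∀ (p q : ℤ) (k : ℕ), p + q + k + 3 = n → ∀ x ∈ (T.K X).H (p, q), L ^ k * x = 0 → x = 0)
    (h2 : ∀ (p q : ℤ) (k : ℕ), p + q + k + 3 = n → ∀ y ∈ (T.K Y).H (p, q), L' ^ k * y = 0 →
      y = 0) {j m : ℕ} (hj : j + m + 3 ≤ n) : KerIso T X Y L L' j m := by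
  have e : n - 3 - m = (n - 3 - m - j) + j := by omega
  refine kerIso_of_inj (fun p q x hx hpq hx0 => ?_) (fun p q x hx hpq hx0 => ?_)
  · refine h1 p q (n - 3 - m) (by omega) x hx ?_
    rw [e, pow_add, mul_assoc, hx0, mul_zero]
  · refine h2 p q (n - 3 - m) (by omega) x hx ?_
    rw [e, pow_add, mul_assoc, hx0, mul_zero]

variable (h : T.IsDerivedPair v w) (hB : T.ConjB X) (P : PullbackAmple (T.K X) L ν)
  (Q : PullbackAmple (T.K Y) L' ν) {lc : X ⟶ X} (lm : lc ∈ T.gr X X 1)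
  (la : ∀ x, T.act lc x = L * x) {lc' : Y ⟶ Y} (lm' : lc' ∈ T.gr Y Y 1)
  (la' : ∀ y, T.act lc' y = L' * y) (hi : ∀ x, T.act v (L * x) = L' * T.act v x)

include h hB P Q lm la lm' la' hi

/-- The images in small dimensions. -/
theorem images {j : ℕ} (hj : j ≤ ν) : (n ≤ j + 3 → ∀ m, ImIso T X Y L L' j m) ∧
    (n = j + 4 → ImIso T X Y L L' j 2 ∧ ImIso T X Y L L' j 4) := by
  let A : Obj T ν j hj := ⟨X, L, P, rat_of_cor la, lc, lm, la, hB⟩
  let B : Obj T ν j hj := ⟨Y, L', Q, rat_of_cor la', lc', lm', la', conjB_trans T hB h⟩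
  obtain ⟨v', w', h'⟩ := pairQ (A := A) (B := B) h hi
  obtain ⟨-, h2, h3, h4⟩ := low (theoryQ T ν j hj) (conjB_Q A) (conjB_Q B) h'
  constructor
  · intro hn m
    exact imIso_of_isoQ (A := A) (B := B) (h4 (fun j h5 h6 => by omega) m)
  · intro hn
    constructor
    · have e : n - j - 2 = 2 := by omega
      have h5 := h2 (by omega) (fun k h5 h6 h7 => by omega)
      rw [e] at h5
      exact imIso_of_isoQ (A := A) (B := B) h5
    · have e : n - j = 4 := by omega
      have h5 := imIso_of_isoQ (A := A) (B := B) (h3 (fun k h5 h6 h7 => by omega))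
      rw [e] at h5
      exact h5

variable (hL : L ^ (ν + 1) = 0) (hL' : L' ^ (ν + 1) = 0)
  (hk : ∀ j m : ℕ, j + m + 2 ≤ n → KerIso T X Y L L' j m)

include hL hL' hk

/-- The criterion. -/
theorem criterion : ∀ m, T.Iso X Y m := by
  have hB' := conjB_trans T hB h
  refine (low T hB hB' h).2.2.2 fun m _ hm => ?_
  induction m using Nat.strong_induction_on with
  | _ m ih =>
    rcases Nat.eq_zero_or_pos m with h0 | h0
    · rw [h0]
      exact iso_zero T
    by_cases hj : n - 2 - m ≤ ν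
    · let A : Obj T ν (n - 2 - m) hj := ⟨X, L, P, rat_of_cor la, lc, lm, la, hB⟩
      let B : Obj T ν (n - 2 - m) hj := ⟨Y, L', Q, rat_of_cor la', lc', lm', la', hB'⟩
      obtain ⟨v', w', h'⟩ := pairQ (A := A) (B := B) h hi
      have h2 := (low (theoryQ T ν (n - 2 - m) hj) (conjB_Q A) (conjB_Q B) h').2.1 (by omega)
        (fun k h5 h6 h7 => by
          refine isoQ_of_ker (A := A) (B := B) h ?_ (hk _ _ (by omega))
          exact ih k (by omega) h5 (by omega))
      have e : n - (n - 2 - m) - 2 = m := by omega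
      rw [e] at h2
      exact iso_of_isoQ (A := A) (B := B) h2 (hk _ _ (by omega))
    · refine iso_of_kerIso_top (L := L) (L' := L') (j := n - 2 - m) ?_ ?_ (hk _ _ (by omega))
      · have e : n - 2 - m = (ν + 1) + (n - 2 - m - (ν + 1)) := by omega
        rw [e, pow_add, hL, zero_mul]
      · have e : n - 2 - m = (ν + 1) + (n - 2 - m - (ν + 1)) := by omega
        rw [e, pow_add, hL', zero_mul]

end

end Run7.h30.Mot
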