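import Pool.Agent.Run7.h30.Mot.Theory

set_option autoImplicit false

open CategoryTheory Module Pool.Agent.W539.DI Pool.Agent.R929.DH Pool.Agent.R941.OH
  Pool.Agent.N174.OC Pool.Agent.Y107

universe u v

namespace Run7.h30.Mot

variable {𝒪 : Type u} [Category.{v} 𝒪] [Preadditive 𝒪] [Linear ℚ 𝒪] {n : ℕ}
  {T : CorTheory 𝒪 n} {ν j : ℕ} {hj : j ≤ ν} {A B : Obj T ν j hj}

theorem act_pow {X Y : 𝒪} {L : (T.K X).R} {L' : (T.K Y).R} {v : X ⟶ Y}
    (hL : ∀ x, T.act v (L * x) = L' * T.act v x) (k : ℕ) (x : (T.K X).R) :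
    T.act v (L ^ k * x) = L' ^ k * T.act v x := by
  induction k with
  | zero => rw [pow_zero, pow_zero, one_mul, one_mul]
  | succ k ih => rw [pow_succ', pow_succ', mul_assoc, hL, ih, mul_assoc]

theorem act_back {X Y : 𝒪} {L : (T.K X).R} {L' : (T.K Y).R} {v : X ⟶ Y} {w : Y ⟶ X}
    (h : T.IsDerivedPair v w) (hL : ∀ x, T.act v (L * x) = L' * T.act v x) (y : (T.K Y).R) :
    T.act w (L' * y) = L * T.act w y := by
  have h1 := hL (T.act w y)
  rw [vw T h] at h1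
  rw [← h1, wv T h]

theorem mem_of_inter {A B : Obj T ν j hj} {v : A.X ⟶ B.X}
    (hL : ∀ x, T.act v (A.L * x) = B.L * T.act v x) : v ∈ homS A B := by
  intro a
  obtain ⟨x, rfl⟩ := res_surj (T.K A.X) A.P hj a
  refine ⟨B.res (T.act v x), ?_⟩
  have e : A.ψ (Run7.h30.res (T.K A.X) A.P hj x) = A.L ^ j * x := psi_res A x
  rw [psi_res, e, act_pow hL]

/-- The derived equivalence acts on the quotients. -/
theorem pairQ {v : A.X ⟶ B.X} {w : B.X ⟶ A.X} (h : T.IsDerivedPair v w)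
    (hL : ∀ x, T.act v (A.L * x) = B.L * T.act v x) :
    ∃ (v' : A ⟶ B) (w' : B ⟶ A), (theoryQ T ν j hj).IsDerivedPair v' w' := by
  let v' : A ⟶ B := (⟨v, mem_of_inter hL⟩ : homS A B)
  let w' : B ⟶ A := (⟨w, mem_of_inter (act_back h hL)⟩ : homS B A)
  have hv : ∀ x, actQ v' (A.res x) = B.res (T.act v x) := by
    intro x
    apply actQ_unique
    have : Obj.val v' = v := rfl
    rw [this, psi_res, psi_res, act_pow hL]
  refine ⟨v', w', Subtype.ext h.left, Subtype.ext h.right, fun x y => ?_⟩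
  obtain ⟨x, rfl⟩ := res_surj (T.K A.X) A.P hj x
  obtain ⟨y, rfl⟩ := res_surj (T.K A.X) A.P hj y
  show B.Q.mukai (actQ v' (A.res x)) (actQ v' (A.res y)) = A.Q.mukai (A.res x) (A.res y)
  rw [hv, hv]
  have e1 : B.Q.mukai (B.res (T.act v x)) (B.res (T.act v y)) =
      (T.K B.X).mukai (T.act v x) (B.L ^ j * T.act v y) := res_mukai (T.K B.X) B.P hj _ _
  have e2 : A.Q.mukai (A.res x) (A.res y) = (T.K A.X).mukai x (A.L ^ j * y) :=
    res_mukai (T.K A.X) A.P hj _ _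
  rw [e1, e2, ← act_pow hL, h.isom]

/-- Isomorphisms pass to the quotients in degrees where `L ^ j` is injective. -/
theorem isoQ_of_iso {m : ℕ} (h : T.Iso A.X B.X m)
    (hA : ∀ (p q : ℤ) (x : (T.K A.X).R), x ∈ (T.K A.X).H (p, q) → p + q = m →
      A.L ^ j * x = 0 → x = 0)
    (hB : ∀ (p q : ℤ) (y : (T.K B.X).R), y ∈ (T.K B.X).H (p, q) → p + q = m →
      B.L ^ j * y = 0 → y = 0) : (theoryQ T ν j hj).Iso A B m := by
  obtain ⟨Z, hZ, Z', hZ', h1, h2⟩ := h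
  -- the quasi-inverse is an inverse in degree `m`
  have key : ∀ (A : Obj T ν j hj), (∀ (p q : ℤ) (x : (T.K A.X).R), x ∈ (T.K A.X).H (p, q) →
      p + q = m → A.L ^ j * x = 0 → x = 0) → ∀ (p q : ℤ) (x : (T.K A.X).R),
      x ∈ (T.K A.X).H (p, q) → p + q = m → T.act A.M (A.L ^ j * x) = x := by
    intro A hA p q x hx hpq
    have h3 := T.act_mem (M_mem A) _ _ _ ((T.K A.X).pow_mul_mem A.P.mem j hx)
    rw [add_neg_cancel_right, add_neg_cancel_right] at h3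
    rw [← sub_eq_zero]
    refine hA p q _ (Submodule.sub_mem _ h3 hx) hpq ?_
    rw [mul_sub, M_spec, sub_self]
  let W : A ⟶ B := (⟨A.M ≫ Z ≫ B.lp j, mem_homS_of (fun a => T.act Z (T.act A.M (A.ψ a)))
    fun a => by rw [T.act_comp, T.act_comp, LinearMap.comp_apply, LinearMap.comp_apply, act_lp]⟩ :
    homS A B)
  let W' : B ⟶ A := (⟨B.M ≫ Z' ≫ A.lp j, mem_homS_of (fun a => T.act Z' (T.act B.M (B.ψ a)))
    fun a => by rw [T.act_comp, T.act_comp, LinearMap.comp_apply, LinearMap.comp_apply, act_lp]⟩ :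
    homS B A)
  have hW : ∀ (p q : ℤ) (x : (T.K A.X).R), x ∈ (T.K A.X).H (p, q) → p + q = m →
      actQ W (A.res x) = B.res (T.act Z x) := by
    intro p q x hx hpq
    apply actQ_unique
    have : Obj.val W = A.M ≫ Z ≫ B.lp j := rfl
    rw [this, T.act_comp, T.act_comp, LinearMap.comp_apply, LinearMap.comp_apply, act_lp, psi_res,
      psi_res, key A hA p q x hx hpq]
  have hW' : ∀ (p q : ℤ) (x : (T.K B.X).R), x ∈ (T.K B.X).H (p, q) → p + q = m →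
      actQ W' (B.res x) = A.res (T.act Z' x) := by
    intro p q x hx hpq
    apply actQ_unique
    have : Obj.val W' = B.M ≫ Z' ≫ A.lp j := rfl
    rw [this, T.act_comp, T.act_comp, LinearMap.comp_apply, LinearMap.comp_apply, act_lp, psi_res,
      psi_res, key B hB p q x hx hpq]
  refine ⟨W, ?_, W', ?_, fun p q x hx hpq => ?_, fun p q x hx hpq => ?_⟩
  · have h3 := T.comp_mem (M_mem A) (T.comp_mem hZ (lp_mem B j))
    rw [zero_add, neg_add_cancel] at h3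
    exact h3
  · have h3 := T.comp_mem (M_mem B) (T.comp_mem hZ' (lp_mem A j))
    rw [zero_add, neg_add_cancel] at h3
    exact h3
  · obtain ⟨x, hx, rfl⟩ := hx
    have h3 := T.act_mem hZ p q x hx
    rw [add_zero, add_zero] at h3
    show actQ W' (actQ W (A.res x)) = A.res x
    rw [hW p q x hx hpq, hW' p q _ h3 hpq, h1 p q x hx hpq]
  · obtain ⟨x, hx, rfl⟩ := hx
    have h3 := T.act_mem hZ' p q x hx
    rw [add_zero, add_zero] at h3
    show actQ W (actQ W' (B.res x)) = B.res x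
    rw [hW' p q x hx hpq, hW p q _ h3 hpq, h2 p q x hx hpq]

/-- The kernels of `L ^ j` and `L' ^ j` in degree `m` are isomorphic by algebraic cycles. -/
def KerIso (T : CorTheory 𝒪 n) (X Y : 𝒪) (L : (T.K X).R) (L' : (T.K Y).R) (j m : ℕ) : Prop :=
  ∃ Z ∈ T.gr X Y 0, ∃ Z' ∈ T.gr Y X 0,
    (∀ (p q : ℤ) (x : (T.K X).R), x ∈ (T.K X).H (p, q) → p + q = m → L ^ j * x = 0 →
      L' ^ j * T.act Z x = 0 ∧ T.act Z' (T.act Z x) = x) ∧
    ∀ (p q : ℤ) (y : (T.K Y).R), y ∈ (T.K Y).H (p, q) → p + q = m → L' ^ j * y = 0 →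
      L ^ j * T.act Z' y = 0 ∧ T.act Z (T.act Z' y) = y

/-- Isomorphisms of the images and the kernels of `L ^ j` give isomorphisms. -/
theorem iso_of_isoQ {m : ℕ} (h : (theoryQ T ν j hj).Iso A B m)
    (hk : KerIso T A.X B.X A.L B.L j m) : T.Iso A.X B.X m := by
  obtain ⟨Z1, hZ1, Z1', hZ1', h1, h2⟩ := h
  obtain ⟨Z0, hZ0, Z0', hZ0', h3, h4⟩ := hk
  have g1 : T.act (Obj.val Z1) = T.act (Obj.val Z1) := rfl
  have hz : ∀ {A B : Obj T ν j hj} (Z1 : A ⟶ B) (Z0 : A.X ⟶ B.X) (x : (T.K A.X).R),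
      T.act ((𝟙 A.X - A.lp j ≫ A.M) ≫ Z0 + A.lp j ≫ Obj.val Z1 ≫ B.M) x =
      T.act Z0 (x - T.act A.M (A.L ^ j * x)) + T.act B.M (B.ψ (actQ Z1 (A.res x))) := by
    intro A B Z1 Z0 x
    rw [map_add, LinearMap.add_apply, T.act_comp, T.act_comp, T.act_comp, map_sub, T.act_id,
      T.act_comp, LinearMap.comp_apply, LinearMap.comp_apply, LinearMap.comp_apply,
      LinearMap.sub_apply, LinearMap.comp_apply, act_lp, psi_actQ, psi_res]
    rfl
  have hdeg : ∀ {A B : Obj T ν j hj} (Z1 : A ⟶ B) (Z0 : A.X ⟶ B.X), Obj.val Z1 ∈ T.gr A.X B.X 0 →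
      Z0 ∈ T.gr A.X B.X 0 →
      (𝟙 A.X - A.lp j ≫ A.M) ≫ Z0 + A.lp j ≫ Obj.val Z1 ≫ B.M ∈ T.gr A.X B.X 0 := by
    intro A B Z1 Z0 hZ1 hZ0
    refine Submodule.add_mem _ ?_ ?_
    · have e1 := T.comp_mem (lp_mem A j) (M_mem A)
      rw [add_neg_cancel] at e1
      have e2 := T.comp_mem (Submodule.sub_mem _ (T.id_mem A.X) e1) hZ0
      rwa [add_zero] at e2
    · have e1 := T.comp_mem (lp_mem A j) (T.comp_mem hZ1 (M_mem B))
      rwa [zero_add, add_neg_cancel] at e1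
  have main : ∀ {A B : Obj T ν j hj} (Z1 : A ⟶ B) (Z0 : A.X ⟶ B.X) (Z1' : B ⟶ A)
      (Z0' : B.X ⟶ A.X),
      (∀ (p q : ℤ) (x : A.Q.R), x ∈ A.Q.H (p, q) → p + q = m → actQ Z1' (actQ Z1 x) = x) →
      (∀ (p q : ℤ) (x : (T.K A.X).R), x ∈ (T.K A.X).H (p, q) → p + q = m → A.L ^ j * x = 0 →
        B.L ^ j * T.act Z0 x = 0 ∧ T.act Z0' (T.act Z0 x) = x) →
      ∀ (p q : ℤ) (x : (T.K A.X).R), x ∈ (T.K A.X).H (p, q) → p + q = m →
      T.act ((𝟙 B.X - B.lp j ≫ B.M) ≫ Z0' + B.lp j ≫ Obj.val Z1' ≫ A.M)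
        (T.act ((𝟙 A.X - A.lp j ≫ A.M) ≫ Z0 + A.lp j ≫ Obj.val Z1 ≫ B.M) x) = x := by
    intro A B Z1 Z0 Z1' Z0' h1 h3 p q x hx hpq
    set y := T.act ((𝟙 A.X - A.lp j ≫ A.M) ≫ Z0 + A.lp j ≫ Obj.val Z1 ≫ B.M) x with hy
    have hy1 := hz Z1 Z0 x
    rw [← hy] at hy1
    have hM := T.act_mem (M_mem A) _ _ _ ((T.K A.X).pow_mul_mem A.P.mem j hx)
    rw [add_neg_cancel_right, add_neg_cancel_right] at hM
    have hk := Submodule.sub_mem _ hx hM
    have hk0 : A.L ^ j * (x - T.act A.M (A.L ^ j * x)) = 0 := by rw [mul_sub, M_spec, sub_self]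
    obtain ⟨h5, h6⟩ := h3 p q _ hk hpq hk0
    have hLy : B.L ^ j * y = B.ψ (actQ Z1 (A.res x)) := by
      rw [hy1, mul_add, h5, M_psi, zero_add]
    have hres : B.res y = actQ Z1 (A.res x) := by
      apply psiK_inj B.P hj
      show B.ψ (B.res y) = _
      rw [psi_res, hLy]
    rw [hz, hLy, hres, h1 p q _ (res_mem (T.K A.X) A.P hj hx) hpq, psi_res]
    have h7 : y - T.act B.M (B.ψ (actQ Z1 (A.res x))) =
        T.act Z0 (x - T.act A.M (A.L ^ j * x)) := by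
      rw [hy1, add_sub_cancel_right]
    rw [h7, h6, sub_add_cancel]
  exact ⟨_, hdeg Z1 Z0 hZ1 hZ0, _, hdeg Z1' Z0' hZ1' hZ0', main Z1 Z0 Z1' Z0' h1 h3,
    main Z1' Z0' Z1 Z0 h2 h4⟩

end Run7.h30.Mot
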