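import Pool.Agent.Run7.h30.Mot.QuotRat

set_option autoImplicit false

open Module Pool.Agent.W539.DI Pool.Agent.R929.DH Pool.Agent.R941.OH

namespace Run7.h30.Mot

variable {n : ℕ} {X : KRing n} {L : X.R} {ν : ℕ} (P : PullbackAmple X L ν) {j : ℕ} (hj : j ≤ ν)

/-- the product with `L ^ j` on the image of the restriction -/
noncomputable def psiK : (quotK X P j hj).R →ₗ[ℂ] X.R := psi X P.mem j

theorem psiK_res (x : X.R) : psiK P hj (res X P hj x) = L ^ j * x := psi_mk X P.mem j x

theorem psiK_inj : Function.Injective (psiK P hj) := psi_inj X P.mem j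

theorem psiK_mul (x : X.R) (a : (quotK X P j hj).R) :
    psiK P hj (res X P hj x * a) = x * psiK P hj a := by
  obtain ⟨y, rfl⟩ := res_surj X P hj a
  rw [← map_mul, psiK_res, psiK_res, ← mul_assoc, ← mul_assoc, pow_comm X P.mem]

theorem tr_psiK (a b : (quotK X P j hj).R) {x : X.R} (hx : res X P hj x = a) :
    (quotK X P j hj).tr (a * b) = X.tr (x * psiK P hj b) := by
  obtain ⟨y, rfl⟩ := res_surj X P hj b
  rw [← hx, ← map_mul, res_tr, psiK_res, ← mul_assoc, ← mul_assoc, pow_comm X P.mem]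

theorem psiK_mem {p q : ℤ} {a : (quotK X P j hj).R} (ha : a ∈ (quotK X P j hj).H (p, q)) :
    psiK P hj a ∈ X.H (p + j, q + j) := by
  rw [res_H] at ha
  obtain ⟨x, hx, rfl⟩ := ha
  exact psiK_res P hj x ▸ X.pow_mul_mem P.mem j hx

theorem pow_pr (p q : ℤ) (y : X.R) (hL : L ∈ X.H (1, 1)) :
    L ^ j * pr X p q y = pr X (p + j) (q + j) (L ^ j * y) := by
  refine X.ind (P := fun y => L ^ j * pr X p q y = pr X (p + j) (q + j) (L ^ j * y)) ?_ ?_ ?_ y
  · simp
  · intro x z hx hz
    rw [map_add, mul_add, mul_add, map_add, hx, hz]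
  · intro a b x hx
    have h1 := X.pow_mul_mem hL j hx
    unfold pr
    rw [diag_of X _ hx, diag_of X _ h1]
    by_cases h : a = p ∧ b = q
    · obtain ⟨rfl, rfl⟩ := h
      simp
    · rw [if_neg, if_neg]
      · simp
      · intro h2
        apply h
        rw [Prod.mk.injEq] at h2
        omega
      · intro h2
        apply h
        rw [Prod.mk.injEq] at h2
        exact h2

theorem mem_of_psiK {p q : ℤ} {a : (quotK X P j hj).R} (ha : psiK P hj a ∈ X.H (p + j, q + j)) :
    a ∈ (quotK X P j hj).H (p, q) := by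
  obtain ⟨y, rfl⟩ := res_surj X P hj a
  rw [psiK_res] at ha
  have h1 : pr X (p + j) (q + j) (L ^ j * y) = L ^ j * y := by
    unfold pr
    rw [diag_of X _ ha]
    simp
  rw [← pow_pr p q y P.mem] at h1
  have h2 : res X P hj y = res X P hj (pr X p q y) := by
    rw [← sub_eq_zero, ← map_sub, res_zero_iff, mul_sub, h1, sub_self]
  rw [h2]
  exact res_mem X P hj (pr_mem X p q y)

variable (r : RatStr X)

theorem rat_psiK (hr : r.IsRat L) {a : (quotK X P j hj).R} (ha : (quotRat P hj r hr).IsRat a) :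
    r.IsRat (psiK P hj a) := by
  obtain ⟨q, rfl⟩ := rat_expand _ ha
  rw [map_sum]
  refine rat_sum r _ _ fun i _ => ?_
  rw [map_smul]
  refine rat_smul r _ ?_
  have he := (exists_sub P hj r).choose_spec.choose_spec.choose_spec.2 i
  have h1 : (quotRat P hj r hr).e i =
      res X P hj (r.e ((exists_sub P hj r).choose_spec.choose i)) := he
  rw [h1, psiK_res]
  exact rat_mul r (rat_pow r hr j) (rat_e r _)

theorem rat_aux (hr : r.IsRat L) (t : RatStr (quotK X P j hj))
    (he : ∀ i, ∃ x, r.IsRat x ∧ t.e i = res X P hj x) {a : (quotK X P j hj).R}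
    (ha : r.IsRat (psiK P hj a)) : t.IsRat a := by
  classical
  intro k
  set z := fun k => t.e.repr a k with hz
  choose x hx he using he
  have h1 : psiK P hj a = ∑ k, z k • (L ^ j * x k) := by
    conv_lhs => rw [← t.e.sum_repr a]
    rw [map_sum]
    refine Finset.sum_congr rfl fun k _ => ?_
    rw [map_smul, he, psiK_res]
  have h2 := congrArg (ret r) h1
  rw [rat_ret r ha, ret_sum r _ _ _ (fun k _ => rat_mul r (rat_pow r hr j) (hx k))] at h2
  have h3 : a = ∑ k, ((retr (z k) : ℚ) : ℂ) • t.e k := by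
    apply psiK_inj P hj
    rw [h2, map_sum]
    refine Finset.sum_congr rfl fun k _ => ?_
    rw [map_smul, he, psiK_res]
  refine ⟨retr (z k), ?_⟩
  rw [h3, map_sum, Finset.sum_apply', Finset.sum_eq_single k]
  · rw [map_smul, Finsupp.smul_apply, t.e.repr_self, Finsupp.single_eq_same, smul_eq_mul, mul_one]
  · intro i _ hi
    rw [map_smul, Finsupp.smul_apply, t.e.repr_self, Finsupp.single_apply, if_neg hi, smul_zero]
  · intro h
    exact absurd (Finset.mem_univ k) h

theorem rat_of_psiK (hr : r.IsRat L) {a : (quotK X P j hj).R} (ha : r.IsRat (psiK P hj a)) :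
    (quotRat P hj r hr).IsRat a :=
  rat_aux P hj r hr _ (fun i =>
    ⟨_, rat_e r _, (exists_sub P hj r).choose_spec.choose_spec.choose_spec.2 i⟩) ha

end Run7.h30.Mot
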