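import Pool.Agent.Run7.h30.QuotK
import Pool.Agent.N174.OC.Pub

set_option autoImplicit false

open Module Pool.Agent.W539.DI Pool.Agent.R929.DH Pool.Agent.R941.OH

namespace Run7.h30.Mot

variable {n : ℕ} {X : KRing n} {L : X.R}

theorem rat_pow (r : RatStr X) (hr : r.IsRat L) (j : ℕ) : r.IsRat (L ^ j) := by
  induction j with
  | zero => rw [pow_zero]; exact r.one_rat
  | succ j ih => rw [pow_succ]; exact rat_mul r ih hr

theorem ret_add (r : RatStr X) (x y : X.R) : ret r (x + y) = ret r x + ret r y := by
  apply r.e.ext_elem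
  intro i
  rw [map_add, Finsupp.add_apply, repr_ret, repr_ret, repr_ret, map_add, Finsupp.add_apply, map_add]
  push_cast
  rfl

theorem ret_smul (r : RatStr X) (z : ℂ) {u : X.R} (hu : r.IsRat u) :
    ret r (z • u) = ((retr z : ℚ) : ℂ) • u := by
  apply r.e.ext_elem
  intro i
  rw [repr_ret, map_smul, map_smul, Finsupp.smul_apply, Finsupp.smul_apply]
  obtain ⟨q, hq⟩ := hu i
  rw [hq, smul_eq_mul, smul_eq_mul, mul_comm z, retr_mul]
  push_cast
  ring

theorem ret_zero (r : RatStr X) : ret r (0 : X.R) = 0 := by
  have := ret_smul r 0 (rat_zero r)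
  simpa using this

theorem ret_sum (r : RatStr X) {κ : Type*} (s : Finset κ) (z : κ → ℂ) (u : κ → X.R)
    (hu : ∀ k ∈ s, r.IsRat (u k)) :
    ret r (∑ k ∈ s, z k • u k) = ∑ k ∈ s, ((retr (z k) : ℚ) : ℂ) • u k := by
  classical
  induction s using Finset.induction_on with
  | empty => rw [Finset.sum_empty, Finset.sum_empty, ret_zero]
  | insert k s hk ih =>
    rw [Finset.sum_insert hk, Finset.sum_insert hk, ret_add,
      ret_smul r _ (hu k (Finset.mem_insert_self _ _)),
      ih fun k hk => hu k (Finset.mem_insert_of_mem hk)]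

variable {ν : ℕ} (P : PullbackAmple X L ν) {j : ℕ} (hj : j ≤ ν) (r : RatStr X)

/-- a basis of the image which consists of restrictions of elements of the given basis -/
theorem exists_sub : ∃ (κ : Type) (a : κ → r.ι) (e' : Basis κ ℂ (quotK X P j hj).R),
    Function.Injective a ∧ ∀ k, e' k = res X P hj (r.e (a k)) := by
  obtain ⟨κ, a, ha, hs, hl⟩ := exists_linearIndependent' ℂ (fun i => res X P hj (r.e i))
  have hspan : ⊤ ≤ Submodule.span ℂ (Set.range ((fun i => res X P hj (r.e i)) ∘ a)) := by
    rw [hs]
    have h1 : Set.range (fun i => res X P hj (r.e i)) =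
        (res X P hj).toLinearMap '' (Set.range r.e) := by
      rw [← Set.range_comp]
      rfl
    rw [h1, ← Submodule.map_span, r.e.span_eq, Submodule.map_top, LinearMap.range_eq_top.2]
    exact res_surj X P hj
  exact ⟨κ, a, Basis.mk hl hspan, ha, fun k => by rw [Basis.mk_apply]; rfl⟩

/-- Rational classes have rational coordinates. -/
theorem coord_rat (hr : r.IsRat L) {κ : Type} {a : κ → r.ι} {e' : Basis κ ℂ (quotK X P j hj).R}
    (ha : Function.Injective a) (he : ∀ k, e' k = res X P hj (r.e (a k))) {w : X.R}
    (hw : r.IsRat w) (k : κ) : ∃ q : ℚ, e'.repr (res X P hj w) k = q := by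
  classical
  haveI : Fintype κ := Fintype.ofInjective a ha
  set z := fun k => e'.repr (res X P hj w) k with hz
  have h1 : res X P hj w = ∑ k, z k • e' k := (e'.sum_repr _).symm
  have h2 : res X P hj (w - ∑ k, z k • r.e (a k)) = 0 := by
    rw [map_sub, map_sum, h1, sub_eq_zero]
    refine Finset.sum_congr rfl fun k _ => ?_
    rw [map_smul, he]
  rw [res_zero_iff, mul_sub, sub_eq_zero, Finset.mul_sum] at h2
  have h3 : L ^ j * w = ∑ k, z k • (L ^ j * r.e (a k)) := by
    rw [h2]
    exact Finset.sum_congr rfl fun k _ => mul_smul_comm _ _ _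
  have h4 := congrArg (ret r) h3
  rw [rat_ret r (rat_mul r (rat_pow r hr j) hw), ret_sum r _ _ _
    (fun k _ => rat_mul r (rat_pow r hr j) (rat_e r (a k)))] at h4
  have h5 : res X P hj (w - ∑ k, ((retr (z k) : ℚ) : ℂ) • r.e (a k)) = 0 := by
    rw [res_zero_iff, mul_sub, sub_eq_zero, h4, Finset.mul_sum]
    exact Finset.sum_congr rfl fun k _ => (mul_smul_comm _ _ _).symm
  rw [map_sub, sub_eq_zero, map_sum] at h5
  have h6 : res X P hj w = ∑ k, ((retr (z k) : ℚ) : ℂ) • e' k := by
    rw [h5]
    refine Finset.sum_congr rfl fun k _ => ?_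
    rw [map_smul, he]
  refine ⟨retr (z k), ?_⟩
  rw [h6, map_sum, Finset.sum_apply', Finset.sum_eq_single k]
  · rw [map_smul, Finsupp.smul_apply, e'.repr_self, Finsupp.single_eq_same, smul_eq_mul, mul_one]
  · intro i _ hi
    rw [map_smul, Finsupp.smul_apply, e'.repr_self, Finsupp.single_apply, if_neg hi, smul_zero]
  · intro h
    exact absurd (Finset.mem_univ k) h

/-- The rational structure of the image. -/
noncomputable def quotRat (hr : r.IsRat L) : RatStr (quotK X P j hj) where
  ι := (exists_sub P hj r).choose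
  fin := Fintype.ofInjective _ (exists_sub P hj r).choose_spec.choose_spec.choose_spec.1
  dec := Classical.decEq _
  e := (exists_sub P hj r).choose_spec.choose_spec.choose
  one_rat := by
    intro i
    have h := coord_rat P hj r hr (exists_sub P hj r).choose_spec.choose_spec.choose_spec.1
      (exists_sub P hj r).choose_spec.choose_spec.choose_spec.2 (w := 1) r.one_rat i
    rwa [map_one] at h
  mul_rat := by
    intro k l i
    have he := (exists_sub P hj r).choose_spec.choose_spec.choose_spec.2
    rw [he k, he l, ← map_mul]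
    exact coord_rat P hj r hr (exists_sub P hj r).choose_spec.choose_spec.choose_spec.1 he
      (rat_mul r (rat_e r _) (rat_e r _)) i
  homog := by
    intro i
    have he := (exists_sub P hj r).choose_spec.choose_spec.choose_spec.2
    obtain ⟨m, hm⟩ := r.homog ((exists_sub P hj r).choose_spec.choose i)
    refine ⟨m, ?_⟩
    rw [he i]
    have h1 : (⨆ p : ℤ, (quotK X P j hj).H (p, m - p)) =
        Submodule.map (res X P hj).toLinearMap (⨆ p : ℤ, X.H (p, m - p)) := by
      rw [Submodule.map_iSup]
      rfl
    rw [h1]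
    exact ⟨_, hm, rfl⟩
  real := by
    intro i
    have he := (exists_sub P hj r).choose_spec.choose_spec.choose_spec.2
    rw [he i, res_bar, r.real]
  tr_rat := by
    intro i
    have he := (exists_sub P hj r).choose_spec.choose_spec.choose_spec.2
    rw [he i, res_tr]
    exact rat_tr r (rat_mul r (rat_pow r hr j) (rat_e r _))
  om_rat := by
    intro i
    exact coord_rat P hj r hr (exists_sub P hj r).choose_spec.choose_spec.choose_spec.1
      (exists_sub P hj r).choose_spec.choose_spec.choose_spec.2 (w := X.ω) r.om_rat i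
  c_rat := by
    intro i
    exact coord_rat P hj r hr (exists_sub P hj r).choose_spec.choose_spec.choose_spec.1
      (exists_sub P hj r).choose_spec.choose_spec.choose_spec.2 (w := X.c) r.c_rat i

theorem quotRat_res (hr : r.IsRat L) {w : X.R} (hw : r.IsRat w) :
    (quotRat P hj r hr).IsRat (res X P hj w) := fun i =>
  coord_rat P hj r hr (exists_sub P hj r).choose_spec.choose_spec.choose_spec.1
    (exists_sub P hj r).choose_spec.choose_spec.choose_spec.2 hw i

end Run7.h30.Mot
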