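import Pool.Agent.Run7.h30.Mot.Main

set_option autoImplicit false

open CategoryTheory Module Pool.Agent.W539.DI Pool.Agent.R929.DH Pool.Agent.R941.OH
  Pool.Agent.N174.OC Pool.Agent.Y107

universe u v

namespace Run7.h30.Mot

section act

set_option linter.unusedSectionVars false

variable {E : Type} [Ring E] [Algebra ℚ E] [FiniteDimensional ℚ E] {n : ℕ} {K : KRing n}
  (A : Act E K)

theorem exists_coef_one (x : K.R) : ∃ c : ℂ, dg K 0 x = c • (1 : K.R) := by
  obtain ⟨f, hf⟩ := exists_coef K
  exact ⟨f x, hf x⟩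

theorem dg_one : dg K 0 (1 : K.R) = 1 := by
  rw [dg_of K K.one_mem, if_pos (by norm_num)]

theorem one_ne : (1 : K.R) ≠ 0 := by
  intro h
  have h1 : finrank ℂ (K.H (0, 0)) = 0 := by
    rw [Submodule.finrank_eq_zero, Submodule.eq_bot_iff]
    intro x _
    rw [← one_mul x, h, zero_mul]
  rw [K.conn] at h1
  exact absurd h1 one_ne_zero

theorem trace_p0 : LinearMap.trace ℂ K.R (A.ρ (A.L.p 0)) = 1 := by
  rw [A.rho_p]
  have hp : LinearMap.IsProj (Submodule.span ℂ {(1 : K.R)}) (dg K 0) := by
    constructor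
    · intro x
      obtain ⟨c, hc⟩ := exists_coef_one x
      rw [hc]
      exact Submodule.smul_mem _ _ (Submodule.mem_span_singleton_self _)
    · intro x hx
      obtain ⟨c, rfl⟩ := Submodule.mem_span_singleton.1 hx
      rw [map_smul, dg_one]
  rw [hp.trace, finrank_span_singleton one_ne]
  norm_num

include A in
theorem regular (a : E) : ∃ x, a * x * a = a := by
  have _ := A.semisimple
  exact exists_regular a

/-- Idempotents whose images are spanned by algebraic classes. -/
theorem tate_mult (d : ℕ) : ∀ (P : E), P * P = P →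
    (∀ x, A.ρ P x ∈ Submodule.span ℂ {y | ∃ a : E, A.ρ a 1 = y}) →
    LinearMap.trace ℂ K.R (A.ρ P) = d → ∀ S : Submodule E E, tS S P = d * tS S (A.L.p 0) := by
  induction d with
  | zero =>
    intro P hP _ ht S
    have h1 : LinearMap.IsProj (LinearMap.range (A.ρ P)) (A.ρ P) := by
      constructor
      · intro x
        exact ⟨x, rfl⟩
      · rintro _ ⟨x, rfl⟩
        rw [← Module.End.mul_apply, ← map_mul, hP]
    rw [h1.trace] at ht
    have h2 : finrank ℂ (LinearMap.range (A.ρ P)) = 0 := by exact_mod_cast ht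
    rw [Submodule.finrank_eq_zero, LinearMap.range_eq_bot] at h2
    have h3 : P = 0 := A.inj (by rw [h2, map_zero])
    rw [h3, map_zero]
    simp
  | succ d ih =>
    intro P hP hspan ht S
    -- an algebraic class in the image
    obtain ⟨a, ha⟩ : ∃ a : E, A.ρ (P * a) 1 ≠ 0 := by
      by_contra hcon
      push Not at hcon
      have h1 : ∀ y ∈ Submodule.span ℂ {y | ∃ a : E, A.ρ a 1 = y}, A.ρ P y = 0 := by
        intro y hy
        refine Submodule.span_induction (p := fun y _ => A.ρ P y = 0) ?_ ?_ ?_ ?_ hy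
        · rintro _ ⟨a, rfl⟩
          rw [← Module.End.mul_apply, ← map_mul]
          exact hcon a
        · rw [map_zero]
        · intro x y _ _ hx hy
          rw [map_add, hx, hy, add_zero]
        · intro c x _ hx
          rw [map_smul, hx, smul_zero]
      have h2 : A.ρ P = 0 := by
        ext x
        have h3 := h1 _ (hspan x)
        rw [← Module.End.mul_apply, ← map_mul, hP] at h3
        rw [h3]
        rfl
      rw [h2, map_zero] at ht
      exact absurd ht.symm (by exact_mod_cast Nat.succ_ne_zero d)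
    have hp0 : A.L.p 0 * A.L.p 0 = A.L.p 0 := by
      apply A.inj
      rw [map_mul, A.rho_p]
      ext x
      exact dg_idem K 0 x
    obtain ⟨u, hu⟩ : ∃ u : E, u = P * a * A.L.p 0 := ⟨_, rfl⟩
    obtain ⟨x, hx⟩ := regular A u
    obtain ⟨w, hw⟩ : ∃ w : E, w = A.L.p 0 * x * P := ⟨_, rfl⟩
    have hPu : P * u = u := by rw [hu, ← mul_assoc, ← mul_assoc, hP]
    have hup : u * A.L.p 0 = u := by rw [hu, mul_assoc, hp0]
    have huwu : u * w * u = u := by
      calc u * w * u = (u * A.L.p 0) * x * (P * u) := by rw [hw]; noncomm_ring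
        _ = u := by rw [hup, hPu, hx]
    have hpw : A.L.p 0 * w = w := by rw [hw, ← mul_assoc, ← mul_assoc, hp0]
    have hwP : w * P = w := by rw [hw, mul_assoc, hP]
    -- `w u` is the projector to degree zero
    have hu1 : A.ρ u 1 ≠ 0 := by
      rw [hu, map_mul, Module.End.mul_apply, A.rho_p, dg_one]
      exact ha
    have hwu : w * u = A.L.p 0 := by
      obtain ⟨c, hc⟩ := exists_coef_one (A.ρ (w * u) 1)
      have h1 : A.ρ (w * u) 1 = c • (1 : K.R) := by
        rw [← hc, ← A.rho_p, ← Module.End.mul_apply, ← map_mul, ← mul_assoc, hpw]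
      have h2 : c • A.ρ u 1 = A.ρ u 1 := by
        have h3 : A.ρ (u * w * u) 1 = A.ρ u 1 := by rw [huwu]
        rw [mul_assoc, map_mul, Module.End.mul_apply, h1, map_smul] at h3
        exact h3
      have h3 : c = 1 := by
        by_contra hne
        have h4 : (c - 1) • A.ρ u 1 = 0 := by rw [sub_smul, one_smul, h2, sub_self]
        rcases smul_eq_zero.1 h4 with h5 | h5
        · exact hne (sub_eq_zero.1 h5)
        · exact hu1 h5
      apply A.inj
      ext y
      obtain ⟨b, hb⟩ := exists_coef_one y
      have h4 : A.ρ (w * u) y = A.ρ (w * u) (dg K 0 y) := by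
        rw [← A.rho_p, ← Module.End.mul_apply, ← map_mul, mul_assoc, hup]
      rw [h4, hb, map_smul, h1, h3, one_smul, A.rho_p, hb]
    have hπ : u * w * (u * w) = u * w := by
      rw [← mul_assoc, huwu]
    have hPπ : P * (u * w) = u * w := by rw [← mul_assoc, hPu]
    have hπP : u * w * P = u * w := by rw [mul_assoc, hwP]
    have htπ : LinearMap.trace ℂ K.R (A.ρ (u * w)) = 1 := by
      rw [map_mul, LinearMap.trace_mul_comm, ← map_mul, hwu, trace_p0]
    have h1 := ih (P - u * w) (by
      rw [sub_mul, mul_sub, mul_sub, hP, hPπ, hπP, hπ, sub_self, sub_zero]) (by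
      intro y
      rw [map_sub, LinearMap.sub_apply]
      refine Submodule.sub_mem _ (hspan y) ?_
      obtain ⟨b, hb⟩ := exists_coef_one (A.ρ w y)
      have h4 : A.ρ (u * w) y = b • A.ρ u 1 := by
        rw [← hpw, map_mul, Module.End.mul_apply, map_mul, Module.End.mul_apply, A.rho_p, hb,
          map_smul]
      rw [h4]
      exact Submodule.smul_mem _ _ (Submodule.subset_span ⟨u, rfl⟩)) (by
      rw [map_sub, map_sub, ht, htπ]
      push_cast
      ring) S
    have h2 : tS S (u * w) = tS S (A.L.p 0) := by rw [tS_mul, hwu]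
    have h3 : tS S P = tS S (P - u * w) + tS S (u * w) := by rw [← map_add, sub_add_cancel]
    rw [h3, h1, h2]
    push_cast
    ring

end act

end Run7.h30.Mot
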