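import Pool.Agent.Run7.h30.Mot.ActQ

set_option autoImplicit false

open CategoryTheory Module Pool.Agent.W539.DI Pool.Agent.R929.DH Pool.Agent.R941.OH
  Pool.Agent.N174.OC Pool.Agent.Y107

universe u v

namespace Run7.h30.Mot

variable {𝒪 : Type u} [Category.{v} 𝒪] [Preadditive 𝒪] [Linear ℚ 𝒪] {n : ℕ}
  {T : CorTheory 𝒪 n}

/-- The ring of algebraic operators is regular. -/
theorem exists_reg {X : 𝒪} (hB : T.ConjB X) {a : Module.End ℂ (T.K X).R} (ha : IsAlg T a) :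
    ∃ b, IsAlg T b ∧ a * b * a = a := by
  obtain ⟨A, _⟩ := exists_actM T hB
  have _ := A.semisimple
  obtain ⟨x, rfl⟩ := exists_E T ha
  obtain ⟨b, hb⟩ := exists_regular x
  exact ⟨rhoE T X b, rhoE_alg T b, by rw [← map_mul, ← map_mul, hb]⟩

variable {ν j : ℕ} {hj : j ≤ ν} {A B C : Obj T ν j hj}

/-- the power of the divisor -/
noncomputable def Obj.lp (A : Obj T ν j hj) : ℕ → (A.X ⟶ A.X)
  | 0 => 𝟙 A.X
  | k + 1 => A.lp k ≫ A.lc

theorem act_lp (A : Obj T ν j hj) (k : ℕ) (x : (T.K A.X).R) :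
    T.act (A.lp k) x = A.L ^ k * x := by
  induction k with
  | zero =>
    rw [Obj.lp, T.act_id, pow_zero, one_mul]
    rfl
  | succ k ih => rw [Obj.lp, T.act_comp, LinearMap.comp_apply, ih, A.act_lc, pow_succ', mul_assoc]

theorem lp_mem (A : Obj T ν j hj) (k : ℕ) : A.lp k ∈ T.gr A.X A.X k := by
  induction k with
  | zero => exact T.id_mem A.X
  | succ k ih =>
    have := T.comp_mem ih A.lc_mem
    push_cast
    exact this

theorem exists_M (A : Obj T ν j hj) (k : ℕ) : ∃ M ∈ T.gr A.X A.X (-k), ∀ x,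
    A.L ^ k * T.act M (A.L ^ k * x) = A.L ^ k * x := by
  obtain ⟨_, ⟨Γ, rfl⟩, h⟩ := exists_reg A.B (isAlg_act T (A.lp k))
  have h1 : ∀ x, A.L ^ k * T.act Γ (A.L ^ k * x) = A.L ^ k * x := by
    intro x
    have h2 := congrArg (fun f : Module.End ℂ (T.K A.X).R => f x) h
    simp only [Module.End.mul_apply, act_lp] at h2
    exact h2
  refine ⟨cmp (T.isInternal A.X A.X) (-k) Γ, cmp_mem _ _ _, fun x => ?_⟩
  refine (T.K A.X).ind (P := fun x => A.L ^ k * T.act (cmp (T.isInternal A.X A.X) (-k) Γ)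
    (A.L ^ k * x) = A.L ^ k * x) ?_ ?_ ?_ x
  · rw [mul_zero, map_zero, mul_zero]
  · intro x y hx hy
    rw [mul_add, map_add, mul_add, hx, hy]
  · intro p q x hx
    by_cases hne : x = 0
    · rw [hne, mul_zero, map_zero, mul_zero]
    have hr : ¬ (p < 0 ∨ q < 0 ∨ (n : ℤ) < p ∨ (n : ℤ) < q) := fun h =>
      hne (zero_of (T.K A.X) h hx)
    obtain ⟨m, hm⟩ : ∃ m : ℕ, p + q = m := ⟨(p + q).toNat, by omega⟩
    have h2 := (T.K A.X).pow_mul_mem A.P.mem k hx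
    rw [act_cj T Γ (-k) (m := m) h2 (by omega)]
    -- `L ^ k` and the projectors
    have h3 : ∀ z : (T.K A.X).R, A.L ^ k * dg (T.K A.X) m z =
        dg (T.K A.X) (m + 2 * k) (A.L ^ k * z) := by
      intro z
      refine (T.K A.X).ind (P := fun z => A.L ^ k * dg (T.K A.X) m z =
        dg (T.K A.X) (m + 2 * k) (A.L ^ k * z)) ?_ ?_ ?_ z
      · simp
      · intro a b ha hb
        rw [map_add, mul_add, mul_add, map_add, ha, hb]
      · intro a b z hz
        rw [dg_of (T.K A.X) hz, dg_of (T.K A.X) ((T.K A.X).pow_mul_mem A.P.mem k hz)]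
        by_cases hab : a + b = m
        · rw [if_pos hab, if_pos (by push_cast; omega)]
        · rw [if_neg hab, if_neg (by push_cast; omega), mul_zero]
    rw [h3, h1, dg_of (T.K A.X) h2, if_pos (by push_cast; omega)]

/-- a quasi-inverse of `L ^ j` -/
noncomputable def Obj.M (A : Obj T ν j hj) : A.X ⟶ A.X := (exists_M A j).choose

theorem M_mem (A : Obj T ν j hj) : A.M ∈ T.gr A.X A.X (-j) := (exists_M A j).choose_spec.1

theorem M_spec (A : Obj T ν j hj) (x : (T.K A.X).R) :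
    A.L ^ j * T.act A.M (A.L ^ j * x) = A.L ^ j * x := (exists_M A j).choose_spec.2 x

theorem M_psi (A : Obj T ν j hj) (a : A.Q.R) : A.L ^ j * T.act A.M (A.ψ a) = A.ψ a := by
  obtain ⟨x, rfl⟩ := res_surj (T.K A.X) A.P hj a
  have e : A.ψ (Run7.h30.res (T.K A.X) A.P hj x) = A.L ^ j * x := psiK_res A.P hj x
  rw [e, M_spec]

theorem psi_res (A : Obj T ν j hj) (x : (T.K A.X).R) : A.ψ (A.res x) = A.L ^ j * x :=
  psiK_res A.P hj x

theorem mem_homS_of {Γ : A.X ⟶ B.X} (f : A.Q.R → (T.K B.X).R)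
    (h : ∀ a, T.act Γ (A.ψ a) = B.L ^ j * f a) : Γ ∈ homS A B :=
  fun a => ⟨B.res (f a), by rw [psi_res, h]⟩

/-- the transpose -/
noncomputable def tpQ (Γ : A ⟶ B) : B ⟶ A :=
  (⟨B.M ≫ T.tp (Obj.val Γ) ≫ A.lp j, mem_homS_of
    (fun b => T.act (T.tp (Obj.val Γ)) (T.act B.M (B.ψ b))) fun b => by
      rw [T.act_comp, T.act_comp, LinearMap.comp_apply, LinearMap.comp_apply, act_lp]⟩ :
    homS B A)

theorem val_tpQ (Γ : A ⟶ B) : Obj.val (tpQ Γ) = B.M ≫ T.tp (Obj.val Γ) ≫ A.lp j := rfl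

theorem act_tpQ (Γ : A ⟶ B) (x : A.Q.R) (y : B.Q.R) :
    A.Q.tr (x * actQ (tpQ Γ) y) = B.Q.tr (actQ Γ x * y) := by
  obtain ⟨x', hx⟩ := res_surj (T.K A.X) A.P hj x
  obtain ⟨u, hu⟩ := res_surj (T.K B.X) B.P hj (actQ Γ x)
  have e1 : A.Q.tr (x * actQ (tpQ Γ) y) = (T.K A.X).tr (x' * A.ψ (actQ (tpQ Γ) y)) :=
    tr_psiK A.P hj _ _ hx
  have e2 : B.Q.tr (actQ Γ x * y) = (T.K B.X).tr (u * B.ψ y) := tr_psiK B.P hj _ _ hu
  rw [e1, e2, psi_actQ, val_tpQ, T.act_comp, T.act_comp, LinearMap.comp_apply,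
    LinearMap.comp_apply, act_lp, ← mul_assoc, ← pow_comm (T.K A.X) A.P.mem, T.act_tp]
  have e3 : A.L ^ j * x' = A.ψ x := by
    rw [← hx]
    exact (psi_res A x').symm
  rw [e3, ← psi_actQ, ← hu]
  have e4 : B.ψ (Run7.h30.res (T.K B.X) B.P hj u) = B.L ^ j * u := psi_res B u
  rw [e4, pow_comm (T.K B.X) B.P.mem, mul_assoc, M_psi]

/-- the ample class -/
noncomputable def omQ (A : Obj T ν j hj) : A ⟶ A :=
  (⟨T.om A.X, fun a => ⟨A.Q.ω * a, by
    rw [T.act_om]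
    exact psiK_mul A.P hj (T.K A.X).ω a⟩⟩ : homS A A)

theorem act_omQ (A : Obj T ν j hj) (a : A.Q.R) : actQ (omQ A) a = A.Q.ω * a := by
  apply actQ_unique
  have : Obj.val (omQ A) = T.om A.X := rfl
  rw [this, T.act_om]
  exact psiK_mul A.P hj (T.K A.X).ω a

/-- the first Chern class -/
noncomputable def chQ (A : Obj T ν j hj) : A ⟶ A :=
  (⟨T.ch A.X, fun a => ⟨A.Q.c * a, by
    rw [T.act_ch]
    exact psiK_mul A.P hj (T.K A.X).c a⟩⟩ : homS A A)

theorem act_chQ (A : Obj T ν j hj) (a : A.Q.R) : actQ (chQ A) a = A.Q.c * a := by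
  apply actQ_unique
  have : Obj.val (chQ A) = T.ch A.X := rfl
  rw [this, T.act_ch]
  exact psiK_mul A.P hj (T.K A.X).c a

/-- the point -/
noncomputable def ptQ (A B : Obj T ν j hj) : A ⟶ B :=
  (⟨A.M ≫ T.pt A.X B.X ≫ B.lp j, mem_homS_of
    (fun a => T.act (T.pt A.X B.X) (T.act A.M (A.ψ a))) fun a => by
      rw [T.act_comp, T.act_comp, LinearMap.comp_apply, LinearMap.comp_apply, act_lp]⟩ :
    homS A B)

theorem M_one (A : Obj T ν j hj) : T.act A.M (A.L ^ j) = 1 := by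
  have h1 : A.L ^ j ∈ (T.K A.X).H (0 + j, 0 + j) := by
    have := (T.K A.X).pow_mul_mem A.P.mem j (T.K A.X).one_mem
    rwa [mul_one] at this
  have h2 := T.act_mem (M_mem A) _ _ _ h1
  rw [add_neg_cancel_right] at h2
  have h0 : (1 : (T.K A.X).R) ≠ 0 := by
    intro h
    apply A.P.pow_ne
    have : A.L ^ ν = A.L ^ ν * 1 := (mul_one _).symm
    rw [this, h, mul_zero]
  have h3 : (T.K A.X).H (0, 0) = Submodule.span ℂ {(1 : (T.K A.X).R)} := by
    symm
    apply Submodule.eq_of_le_of_finrank_eq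
    · rw [Submodule.span_singleton_le_iff_mem]
      exact (T.K A.X).one_mem
    · rw [(T.K A.X).conn, finrank_span_singleton h0]
  rw [h3, Submodule.mem_span_singleton] at h2
  obtain ⟨c, hc⟩ := h2
  have h4 := M_spec A 1
  rw [mul_one, ← hc, mul_smul_comm, mul_one] at h4
  have h5 : A.L ^ j ≠ 0 := pow_ne_le (T.K A.X) A.P.pow_ne hj
  have h6 : (c - 1) • A.L ^ j = 0 := by rw [sub_smul, one_smul, h4, sub_self]
  rcases smul_eq_zero.1 h6 with h7 | h7
  · rw [← hc, sub_eq_zero.1 h7, one_smul]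
  · exact absurd h7 h5

theorem act_ptQ (A B : Obj T ν j hj) : actQ (ptQ A B) 1 = 1 := by
  apply actQ_unique
  have h1 : Obj.val (ptQ A B) = A.M ≫ T.pt A.X B.X ≫ B.lp j := rfl
  have h2 : ∀ A : Obj T ν j hj, A.ψ 1 = A.L ^ j := by
    intro A
    have := psi_res A 1
    rw [map_one, mul_one] at this
    exact this
  rw [h1, h2 A, h2 B, T.act_comp, T.act_comp, LinearMap.comp_apply, LinearMap.comp_apply, act_lp,
    M_one, T.act_pt, mul_one]

/-- The theory of correspondences of the quotients. -/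
noncomputable def theoryQ (T : CorTheory 𝒪 n) (ν j : ℕ) (hj : j ≤ ν) :
    CorTheory (Obj T ν j hj) (n - j) where
  toCorAct := corActQ T ν j hj
  tp Γ := tpQ Γ
  act_tp Γ x y := act_tpQ Γ x y
  om A := omQ A
  act_om A x := act_omQ A x
  ch A := chQ A
  act_ch A x := act_chQ A x
  pt A B := ptQ A B
  pt_mem A B := by
    have h1 := T.comp_mem (M_mem A) (T.comp_mem (T.pt_mem A.X B.X) (lp_mem B j))
    rw [zero_add, neg_add_cancel] at h1
    exact h1
  act_pt A B := act_ptQ A B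

theorem conjB_Q (A : Obj T ν j hj) : (theoryQ T ν j hj).ConjB A := by
  apply conjB_of_regular
  rintro _ ⟨Γ, rfl⟩
  obtain ⟨_, ⟨Δ, rfl⟩, h⟩ := exists_reg A.B (isAlg_act T (A.lp j ≫ Obj.val Γ))
  let Ξ : A ⟶ A := (⟨Δ ≫ A.lp j, mem_homS_of (fun a => T.act Δ (A.ψ a)) fun a => by
      rw [T.act_comp, LinearMap.comp_apply, act_lp]⟩ : homS A A)
  refine ⟨actQ Ξ, ⟨Ξ, rfl⟩, ?_⟩
  ext a
  obtain ⟨x, rfl⟩ := res_surj (T.K A.X) A.P hj a
  apply psiK_inj A.P hj
  show A.ψ (actQ Γ (actQ Ξ (actQ Γ _))) = A.ψ (actQ Γ _)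
  have hΞ : Obj.val Ξ = Δ ≫ A.lp j := rfl
  have e : A.ψ (Run7.h30.res (T.K A.X) A.P hj x) = A.L ^ j * x := psi_res A x
  rw [psi_actQ, psi_actQ, psi_actQ, hΞ, T.act_comp, LinearMap.comp_apply, act_lp, e]
  have h2 := congrArg (fun f : Module.End ℂ (T.K A.X).R => f x) h
  simp only [Module.End.mul_apply, T.act_comp, LinearMap.comp_apply, act_lp] at h2
  exact h2

end Run7.h30.Mot
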